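import Pool.Agent.Helper96.SH.Sa

/-!
Several complex variables II: holomorphic functions of several variables are analytic;
locally uniform limits.
-/

open Complex Metric Set MeasureTheory Filter
open scoped Real Topology NNReal ENNReal

namespace Pool.Agent.Helper96.SH

variable {E : Type*} [NormedAddCommGroup E] [NormedSpace ℂ E]
variable {ι : Type*} [Fintype ι] [DecidableEq ι]

/-- a word with letter counts `m` -/
noncomputable def word {m : ι → ℕ} {k : ℕ} (h : ∑ i, m i = k) : Fin k ≃ Σ i, Fin (m i) :=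
  Fintype.equivOfCardEq (by simp [h])

omit [DecidableEq ι] in
theorem word_prod {m : ι → ℕ} {k : ℕ} (h : ∑ i, m i = k) (z : ι → ℂ) :
    ∏ j, z (word h j).1 = ∏ i, z i ^ m i := by
  rw [Fintype.prod_equiv (word h) (fun j => z (word h j).1) (fun p => z p.1) (fun j => rfl),
    Fintype.prod_sigma]
  simp

open Classical in
/-- the multilinear monomial -/
noncomputable def mon (k : ℕ) (m : ι → ℕ) : ContinuousMultilinearMap ℂ (fun _ : Fin k => ι → ℂ) ℂ :=
  if h : ∑ i, m i = k then
    (ContinuousMultilinearMap.mkPiAlgebraFin ℂ k ℂ).compContinuousLinearMap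
      (fun j => ContinuousLinearMap.proj (R := ℂ) (φ := fun _ : ι => ℂ) (word h j).1)
  else 0

omit [DecidableEq ι] in
theorem mon_apply {k : ℕ} {m : ι → ℕ} (h : ∑ i, m i = k) (z : ι → ℂ) :
    mon k m (fun _ => z) = ∏ i, z i ^ m i := by
  rw [mon, dif_pos h, ← word_prod h z]
  simp [List.prod_ofFn]

omit [DecidableEq ι] in
theorem norm_mon_le (k : ℕ) (m : ι → ℕ) : ‖mon k m‖ ≤ 1 := by
  unfold mon
  split_ifs with h
  · refine ContinuousMultilinearMap.opNorm_le_bound zero_le_one fun v => ?_
    simp only [ContinuousMultilinearMap.compContinuousLinearMap_apply,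
      ContinuousMultilinearMap.mkPiAlgebraFin_apply, List.prod_ofFn, one_mul, norm_prod]
    exact Finset.prod_le_prod (fun _ _ => norm_nonneg _) fun j _ => norm_le_pi_norm (v j) _
  · simp

/-- the formal multilinear series of a family of coefficients -/
noncomputable def fms (c : (ι → ℕ) → E) : FormalMultilinearSeries ℂ (ι → ℂ) E := fun k =>
  ∑ m ∈ Finset.piAntidiag Finset.univ k, (mon k m).smulRight (c m)

omit [DecidableEq ι] in
theorem summable_geo' {r s : ℝ} (hs : 0 ≤ s) (hr : s < r) :
    Summable fun m : ι → ℕ => (s / r) ^ (∑ i, m i) := by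
  obtain ⟨n, ⟨e⟩⟩ : ∃ n, Nonempty (ι ≃ Fin n) := ⟨Fintype.card ι, ⟨Fintype.equivFin ι⟩⟩
  have h0 : 0 < r := hs.trans_lt hr
  have h := summable_geo (n := n) (fun _ => s / r) (fun _ => by positivity)
    (fun _ => (div_lt_one h0).mpr hr)
  have h2 := (e.arrowCongr (Equiv.refl ℕ)).summable_iff.mpr h
  refine h2.congr fun m => ?_
  simp only [Function.comp, Equiv.arrowCongr, Equiv.coe_fn_mk, Equiv.refl_apply]
  rw [Finset.prod_pow_eq_pow_sum]
  congr 1
  exact Fintype.sum_equiv e.symm _ _ fun i => rfl

theorem hasFPowerSeriesOnBall_of_coef {f : (ι → ℂ) → E} {x : ι → ℂ} {r : ℝ≥0} {M : ℝ} (hr : 0 < r)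
    {c : (ι → ℕ) → E} (hc : ∀ m, ‖c m‖ ≤ M / (r : ℝ) ^ (∑ i, m i))
    (hs : ∀ z, ‖z‖ < r → HasSum (fun m => (∏ i, z i ^ m i) • c m) (f (x + z))) :
    HasFPowerSeriesOnBall f (fms c) x r := by
  have hM : 0 ≤ M := by
    have := (norm_nonneg _).trans (hc 0)
    simpa using this
  refine ⟨?_, by exact_mod_cast hr, ?_⟩
  · refine ENNReal.le_of_forall_nnreal_lt fun s hs' => ?_
    have hs2 : (s : ℝ) < r := by exact_mod_cast hs'
    have hsum := (summable_geo' (ι := ι) s.2 hs2).mul_left M
    refine (fms c).le_radius_of_bound (∑' m : ι → ℕ, M * ((s : ℝ) / r) ^ (∑ i, m i)) fun k => ?_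
    have h1 : ‖fms c k‖ ≤ ∑ m ∈ Finset.piAntidiag (Finset.univ : Finset ι) k, ‖c m‖ := by
      refine (norm_sum_le _ _).trans (Finset.sum_le_sum fun m _ => ?_)
      rw [ContinuousMultilinearMap.norm_smulRight]
      exact mul_le_of_le_one_left (norm_nonneg _) (norm_mon_le k m)
    calc ‖fms c k‖ * (s : ℝ) ^ k
        ≤ (∑ m ∈ Finset.piAntidiag (Finset.univ : Finset ι) k, ‖c m‖) * (s : ℝ) ^ k := by gcongr
      _ ≤ ∑ m ∈ Finset.piAntidiag (Finset.univ : Finset ι) k,
          M * ((s : ℝ) / r) ^ (∑ i, m i) := by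
        rw [Finset.sum_mul]
        refine Finset.sum_le_sum fun m hm => ?_
        have hmk : ∑ i, m i = k := (Finset.mem_piAntidiag.mp hm).1
        have := hc m
        rw [hmk] at this ⊢
        calc ‖c m‖ * (s : ℝ) ^ k ≤ M / (r : ℝ) ^ k * (s : ℝ) ^ k := by gcongr
          _ = _ := by rw [div_pow]; ring
      _ ≤ _ := hsum.sum_le_tsum _ fun m _ => by positivity
  · intro z hz
    have hz' : ‖z‖ < r := by simpa using hz
    have h1 := hs z hz'
    have h2 := (Equiv.sigmaFiberEquiv fun m : ι → ℕ => ∑ i, m i).hasSum_iff.mpr h1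
    have h3 := h2.sigma (g := fun k => fms c k fun _ => z) fun k => ?_
    · exact h3
    · have h4 := (Finset.piAntidiag (Finset.univ : Finset ι) k).hasSum
        (fun m => (∏ i, z i ^ m i) • c m)
      have h5 : ∑ m ∈ Finset.piAntidiag (Finset.univ : Finset ι) k, (∏ i, z i ^ m i) • c m =
          fms c k fun _ => z := by
        rw [fms, sum_apply]
        refine Finset.sum_congr rfl fun m hm => ?_
        have hmk : ∑ i, m i = k := (Finset.mem_piAntidiag.mp hm).1
        rw [ContinuousMultilinearMap.smulRight_apply, mon_apply hmk]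
      rw [h5] at h4
      let e : {m : ι → ℕ // ∑ i, m i = k} ≃ (Finset.piAntidiag (Finset.univ : Finset ι) k) :=
        Equiv.subtypeEquivRight fun m => by
          rw [Finset.mem_piAntidiag]
          exact ⟨fun h => ⟨h, fun i _ => Finset.mem_univ i⟩, fun h => h.1⟩
      exact e.hasSum_iff.mpr h4

/-- continuous and holomorphic in each variable on an open set implies analytic -/
theorem analyticOnNhd_of_sep [CompleteSpace E] {f : (ι → ℂ) → E} {U : Set (ι → ℂ)} (hU : IsOpen U)
    (hc : ContinuousOn f U)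
    (hd : ∀ z ∈ U, ∀ j, DifferentiableAt ℂ (fun t => f (Function.update z j t)) (z j)) :
    AnalyticOnNhd ℂ f U := by
  intro x hx
  obtain ⟨r, hr, hrU⟩ := nhds_basis_closedBall.mem_iff.mp (hU.mem_nhds hx)
  have hsub : ∀ z : ι → ℂ, z ∈ closedBall (0 : ι → ℂ) r → x + z ∈ U := fun z hz =>
    hrU (by simpa using hz)
  have hsep : Sep (fun z => f (x + z)) r := by
    refine ⟨hc.comp (by fun_prop) hsub, fun z hz j t ht => ?_⟩
    have ht' : Function.update z j t ∈ closedBall (0 : ι → ℂ) r :=
      update_mem hr.le hz (ball_subset_closedBall ht) j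
    have h1 := hd _ (hsub _ ht') j
    have h2 : (fun s : ℂ => f (x + Function.update z j s)) = 
        fun s => (fun t' => f (Function.update (x + Function.update z j t) j t')) (x j + s) := by
      funext s
      simp only
      congr 1
      funext i
      by_cases hi : i = j
      · subst hi; simp
      · simp [Function.update_of_ne hi]
    refine DifferentiableAt.differentiableWithinAt ?_
    rw [h2]
    have h3 : (x + Function.update z j t) j = x j + t := by simp
    rw [h3] at h1
    exact DifferentiableAt.comp (g := fun t' => f (Function.update (x + Function.update z j t) j t'))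
      t h1 (by fun_prop)
  obtain ⟨M, hM⟩ : ∃ M, ∀ z ∈ closedBall x r, ‖f z‖ ≤ M :=
    (isCompact_closedBall x r).exists_bound_of_continuousOn (hc.mono hrU)
  obtain ⟨c, hc', hs⟩ := osgood hr hsep hM
  exact (hasFPowerSeriesOnBall_of_coef (r := ⟨r, hr.le⟩) (by exact_mod_cast hr) hc' hs).analyticAt

/-- holomorphic functions of several variables are analytic -/
theorem analyticOnNhd_of_differentiableOn [CompleteSpace E] {f : (ι → ℂ) → E} {U : Set (ι → ℂ)}
    (hU : IsOpen U) (hf : DifferentiableOn ℂ f U) : AnalyticOnNhd ℂ f U := by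
  refine analyticOnNhd_of_sep hU hf.continuousOn fun z hz j => ?_
  have h1 : DifferentiableAt ℂ f (Function.update z j (z j)) := by
    rw [Function.update_eq_self]
    exact hf.differentiableAt (hU.mem_nhds hz)
  exact h1.comp (z j) (hasDerivAt_update z j (z j)).differentiableAt

/-- the same in an arbitrary finite-dimensional space -/
theorem analyticOnNhd_of_differentiableOn' [CompleteSpace E] {V : Type*} [NormedAddCommGroup V]
    [NormedSpace ℂ V] [FiniteDimensional ℂ V] {f : V → E} {U : Set V}
    (hU : IsOpen U) (hf : DifferentiableOn ℂ f U) : AnalyticOnNhd ℂ f U := by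
  let e : V ≃L[ℂ] (Fin (Module.finrank ℂ V) → ℂ) := ContinuousLinearEquiv.ofFinrankEq (by simp)
  have h1 : DifferentiableOn ℂ (fun z => f (e.symm z)) (e.symm ⁻¹' U) :=
    hf.comp e.symm.differentiable.differentiableOn fun z hz => hz
  have h2 := analyticOnNhd_of_differentiableOn (hU.preimage e.symm.continuous) h1
  intro x hx
  have h3 := (h2 (e x) (by simpa using hx)).comp (f := e) (e.analyticAt x)
  simpa [Function.comp_def] using h3

end Pool.Agent.Helper96.SH
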