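import Pool.Agent.Helper96.SH.Cb

/-!
Block C1: quasi-periodicity, evenness and invariance of theta functions.
-/

open Complex Metric Set Filter
open scoped Real Topology

namespace Pool.Agent.Helper96.SH

variable {ι : Type} [Fintype ι]

theorem bl_add_left (Z : Matrix ι ι ℂ) (x x' y : ι → ℂ) : bl Z (x + x') y = bl Z x y + bl Z x' y := by
  simp only [bl, Pi.add_apply, ← Finset.sum_add_distrib]
  exact Finset.sum_congr rfl fun i _ => Finset.sum_congr rfl fun j _ => by ring

theorem bl_add_right (Z : Matrix ι ι ℂ) (x y y' : ι → ℂ) : bl Z x (y + y') = bl Z x y + bl Z x y' := by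
  simp only [bl, Pi.add_apply, ← Finset.sum_add_distrib]
  exact Finset.sum_congr rfl fun i _ => Finset.sum_congr rfl fun j _ => by ring

theorem bl_neg_left (Z : Matrix ι ι ℂ) (x y : ι → ℂ) : bl Z (-x) y = -bl Z x y := by
  simp only [bl, Pi.neg_apply, ← Finset.sum_neg_distrib]
  exact Finset.sum_congr rfl fun i _ => Finset.sum_congr rfl fun j _ => by ring

theorem bl_neg_right (Z : Matrix ι ι ℂ) (x y : ι → ℂ) : bl Z x (-y) = -bl Z x y := by
  simp only [bl, Pi.neg_apply, ← Finset.sum_neg_distrib]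
  exact Finset.sum_congr rfl fun i _ => Finset.sum_congr rfl fun j _ => by ring

theorem bl_symm {Z : Matrix ι ι ℂ} (hZ : ∀ i j, Z i j = Z j i) (x y : ι → ℂ) :
    bl Z x y = bl Z y x := by
  simp only [bl]
  rw [Finset.sum_comm]
  exact Finset.sum_congr rfl fun i _ => Finset.sum_congr rfl fun j _ => by rw [hZ j i]; ring

theorem dt_add_left (x x' y : ι → ℂ) : dt (x + x') y = dt x y + dt x' y := by
  simp only [dt, Pi.add_apply, ← Finset.sum_add_distrib]
  exact Finset.sum_congr rfl fun i _ => by ring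

theorem dt_add_right (x y y' : ι → ℂ) : dt x (y + y') = dt x y + dt x y' := by
  simp only [dt, Pi.add_apply, ← Finset.sum_add_distrib]
  exact Finset.sum_congr rfl fun i _ => by ring

theorem dt_neg_left (x y : ι → ℂ) : dt (-x) y = -dt x y := by
  simp [dt]

theorem dt_neg_right (x y : ι → ℂ) : dt x (-y) = -dt x y := by
  simp [dt]

theorem dt_comm (x y : ι → ℂ) : dt x y = dt y x := by
  simp only [dt]
  exact Finset.sum_congr rfl fun i _ => by ring

theorem dt_mv (Z : Matrix ι ι ℂ) (x y : ι → ℂ) : dt x (mv Z y) = bl Z x y := by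
  simp only [dt, mv, bl, Finset.mul_sum]
  exact Finset.sum_congr rfl fun i _ => Finset.sum_congr rfl fun j _ => by ring

theorem mv_add (Z : Matrix ι ι ℂ) (x y : ι → ℂ) : mv Z (x + y) = mv Z x + mv Z y := by
  funext i
  simp only [mv, Pi.add_apply, ← Finset.sum_add_distrib]
  exact Finset.sum_congr rfl fun j _ => by ring

theorem mv_neg (Z : Matrix ι ι ℂ) (x : ι → ℂ) : mv Z (-x) = -mv Z x := by
  funext i
  simp [mv]

omit [Fintype ι] in
theorem cI_add (m n : ι → ℤ) : cI (m + n) = cI m + cI n := by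
  funext i
  simp [cI]

omit [Fintype ι] in
theorem cI_neg (m : ι → ℤ) : cI (-m) = -cI m := by
  funext i
  simp [cI]

/-- an integer scalar product -/
def iI (m n : ι → ℤ) : ℤ := ∑ i, m i * n i

theorem dt_cI_cI (m n : ι → ℤ) : dt (cI m) (cI n) = (iI m n : ℂ) := by
  simp [dt, cI, iI]

theorem exp_two_pi_int (k : ℤ) : cexp (2 * π * I * k) = 1 := by
  rw [show 2 * (π : ℂ) * I * k = k * (2 * π * I) by ring]
  exact Complex.exp_int_mul_two_pi_mul_I k

theorem th_add_int (Z : Matrix ι ι ℂ) (z : ι → ℂ) (l : ι → ℤ) : th Z (z + cI l) = th Z z := by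
  unfold th
  refine tsum_congr fun n => ?_
  rw [dt_add_right, dt_cI_cI, mul_add, ← add_assoc, Complex.exp_add, exp_two_pi_int, mul_one]

theorem th_add_mv {Z : Matrix ι ι ℂ} (hZ : ∀ i j, Z i j = Z j i) (z : ι → ℂ) (l : ι → ℤ) :
    th Z (z + mv Z (cI l)) =
      cexp (-(π * I * bl Z (cI l) (cI l)) - 2 * π * I * dt (cI l) z) * th Z z := by
  unfold th
  rw [← (Equiv.addRight l).tsum_eq (fun n : ι → ℤ =>
    cexp (π * I * bl Z (cI n) (cI n) + 2 * π * I * dt (cI n) z)), ← tsum_mul_left]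
  refine tsum_congr fun n => ?_
  rw [← Complex.exp_add]
  congr 1
  simp only [Equiv.coe_addRight, cI_add, bl_add_left, bl_add_right, dt_add_left, dt_add_right,
    dt_mv]
  rw [bl_symm hZ (cI l) (cI n)]
  ring

theorem th_neg (Z : Matrix ι ι ℂ) (z : ι → ℂ) : th Z (-z) = th Z z := by
  unfold th
  rw [← (Equiv.neg (ι → ℤ)).tsum_eq (fun n : ι → ℤ =>
    cexp (π * I * bl Z (cI n) (cI n) + 2 * π * I * dt (cI n) z))]
  refine tsum_congr fun n => ?_
  congr 1
  simp only [Equiv.neg_apply, cI_neg, bl_neg_left, bl_neg_right, dt_neg_left, dt_neg_right]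
  ring

theorem FF_neg (Z : Matrix ι ι ℂ) (p q : ι → ℂ) : FF Z (-p) (-q) = FF Z p q := by
  unfold FF
  rw [bl_neg_left, bl_neg_right, neg_neg, dt_neg_left, dt_neg_right, neg_neg, mv_neg,
    ← neg_add, th_neg]

theorem FF_add_q (Z : Matrix ι ι ℂ) (p q : ι → ℂ) (b : ι → ℤ) :
    FF Z p (q + cI b) = cexp (π * I * dt p (cI b)) * FF Z p q := by
  unfold FF
  rw [← add_assoc, th_add_int, dt_add_right, ← mul_assoc, ← Complex.exp_add]
  congr 2
  ring

theorem FF_add_p {Z : Matrix ι ι ℂ} (hZ : ∀ i j, Z i j = Z j i) (p q : ι → ℂ) (a : ι → ℤ) :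
    FF Z (p + cI a) q = cexp (-(π * I * dt (cI a) q)) * FF Z p q := by
  unfold FF
  have h1 : mv Z (p + cI a) + q = (mv Z p + q) + mv Z (cI a) := by
    rw [mv_add]
    abel
  rw [h1, th_add_mv hZ, ← mul_assoc, ← Complex.exp_add, ← mul_assoc, ← Complex.exp_add]
  congr 2
  simp only [bl_add_left, bl_add_right, dt_add_left, dt_add_right, dt_mv]
  rw [bl_symm hZ (cI a) p]
  ring

/-- quasi-periodicity -/
theorem FF_per {Z : Matrix ι ι ℂ} (hZ : ∀ i j, Z i j = Z j i) (p q : ι → ℂ) (a b : ι → ℤ) :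
    FF Z (p + cI a) (q + cI b) =
      cexp (π * I * (iI a b : ℂ)) * cexp (π * I * (dt p (cI b) - dt (cI a) q)) * FF Z p q := by
  rw [FF_add_q, FF_add_p hZ, ← mul_assoc, ← Complex.exp_add, ← Complex.exp_add, dt_add_left,
    dt_cI_cI]
  congr 2
  ring

/-- invariance under the vectors `(v, -Zv)` -/
theorem FF_hol {Z : Matrix ι ι ℂ} (p q v : ι → ℂ) :
    FF Z (p + v) (q - mv Z v) = cexp (π * I * dt v (mv Z p + q)) * FF Z p q := by
  unfold FF
  have h1 : mv Z (p + v) + (q - mv Z v) = mv Z p + q := by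
    rw [mv_add]
    abel
  rw [h1, ← mul_assoc, ← Complex.exp_add]
  congr 2
  have h2 : dt (p + v) (q - mv Z v) = dt (p + v) q - bl Z (p + v) v := by
    rw [sub_eq_add_neg, dt_add_right, dt_neg_right, dt_mv]
    ring
  rw [h2]
  simp only [bl_add_left, bl_add_right, dt_add_left, dt_add_right, dt_mv]
  ring

end Pool.Agent.Helper96.SH
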