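import Pool.Agent.Helper96.SH.Cf
import Pool.Agent.Helper16.SH.Fd

/-!
The holomorphic family of normalised theta functions over a domain in Siegel space.
-/

open Complex Metric Set Filter Pool.Agent.Helper16.SH
open scoped Real Topology

namespace Pool.Agent.Helper96.SH

variable {μ : Type} [Fintype μ] [DecidableEq μ]

/-- the standard symplectic form -/
def E0 (μ : Type) [DecidableEq μ] : Matrix (μ ⊕ μ) (μ ⊕ μ) ℤ := Matrix.fromBlocks 0 1 (-1) 0

/-- the semicharacter of the standard theta function -/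
noncomputable def ep0 (l : μ ⊕ μ → ℤ) : ℂ :=
  cexp (π * I * (iI (fun i => l (Sum.inl i)) (fun i => l (Sum.inr i)) : ℂ))

/-- the graph of `-Z` -/
def NZ (Z : Matrix μ μ ℂ) : Submodule ℂ (μ ⊕ μ → ℂ) where
  carrier := {w | (fun i => w (Sum.inr i)) = -mv Z (fun i => w (Sum.inl i))}
  add_mem' := by
    intro a b ha hb
    simp only [mem_ofPred_eq] at ha hb ⊢
    have h1 : (fun i => (a + b) (Sum.inl i)) = (fun i => a (Sum.inl i)) + fun i => b (Sum.inl i) := rfl
    rw [h1, mv_add, neg_add, ← ha, ← hb]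
    rfl
  zero_mem' := by
    simp only [mem_ofPred_eq]
    funext i
    simp [mv]
  smul_mem' := by
    intro c a ha
    simp only [mem_ofPred_eq] at ha ⊢
    funext i
    have := congrFun ha i
    simp only [Pi.neg_apply, Pi.smul_apply, smul_eq_mul, mv] at this ⊢
    rw [this, mul_neg, Finset.mul_sum]
    congr 1
    exact Finset.sum_congr rfl fun j _ => by ring

omit [DecidableEq μ] in
theorem mem_NZ {Z : Matrix μ μ ℂ} {w : μ ⊕ μ → ℂ} :
    w ∈ NZ Z ↔ (fun i => w (Sum.inr i)) = -mv Z (fun i => w (Sum.inl i)) := Iff.rfl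

/-- the theta function on `C^(μ ⊕ μ)` -/
noncomputable def GF (Z : Matrix μ μ ℂ) (w : μ ⊕ μ → ℂ) : ℂ :=
  FF Z (fun i => w (Sum.inl i)) (fun i => w (Sum.inr i))

theorem En_E0 (w w' : μ ⊕ μ → ℂ) : En (E0 μ) w w' =
    EE (fun i => w (Sum.inl i), fun i => w (Sum.inr i))
      (fun i => w' (Sum.inl i), fun i => w' (Sum.inr i)) := by
  simp only [En, bl, EE, dt, E0, Fintype.sum_sum_type]
  simp [Matrix.one_apply, Finset.sum_neg_distrib, ← sub_eq_add_neg]

omit [Fintype μ] in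
theorem E0_alt (i j : μ ⊕ μ) : E0 μ i j = -E0 μ j i := by
  rcases i with i | i <;> rcases j with j | j <;> simp [E0, Matrix.one_apply, eq_comm]

omit [DecidableEq μ] in
theorem ep0_norm (l : μ ⊕ μ → ℤ) : ‖ep0 l‖ = 1 := by
  unfold ep0
  rw [show (π : ℂ) * I * (iI (fun i => l (Sum.inl i)) (fun i => l (Sum.inr i)) : ℂ) =
    ((π * (iI (fun i => l (Sum.inl i)) (fun i => l (Sum.inr i)) : ℝ) : ℝ) : ℂ) * I by
      push_cast; ring]
  exact Complex.norm_exp_ofReal_mul_I _

theorem exp_pi_int_congr {a b : ℤ} (h : (2 : ℤ) ∣ a - b) :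
    cexp (π * I * (a : ℂ)) = cexp (π * I * (b : ℂ)) := by
  obtain ⟨k, hk⟩ := h
  have h1 : (a : ℂ) = b + 2 * k := by
    have : a = b + 2 * k := by linarith
    rw [this]; push_cast; ring
  rw [h1, mul_add, Complex.exp_add, show (π : ℂ) * I * (2 * k) = 2 * π * I * k by ring,
    exp_two_pi_int, mul_one]

omit [DecidableEq μ] in
theorem ep0_congr (l l' : μ ⊕ μ → ℤ) (h : ∀ i, (2 : ℤ) ∣ l i - l' i) : ep0 l = ep0 l' := by
  unfold ep0
  refine exp_pi_int_congr ?_
  simp only [iI]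
  rw [← Finset.sum_sub_distrib]
  refine Finset.dvd_sum fun i _ => ?_
  obtain ⟨a, ha⟩ := h (Sum.inl i)
  obtain ⟨b, hb⟩ := h (Sum.inr i)
  refine ⟨a * l (Sum.inr i) + l' (Sum.inl i) * b, ?_⟩
  have h1 : l (Sum.inl i) = l' (Sum.inl i) + 2 * a := by linarith
  have h2 : l (Sum.inr i) = l' (Sum.inr i) + 2 * b := by linarith
  rw [h1, h2]
  ring

theorem GF_QPer {Z : Matrix μ μ ℂ} (hZ : Sieg Z) : QPer (E0 μ) ep0 (GF Z) := by
  intro l w
  have h := FF_L hZ.symm (fun i => w (Sum.inl i), fun i => w (Sum.inr i))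
    (fun i => l (Sum.inl i)) (fun i => l (Sum.inr i))
  have h1 : GF Z (w + cI l) = FF Z
      ((fun i => w (Sum.inl i), fun i => w (Sum.inr i)) + (cI (fun i => l (Sum.inl i)),
        cI (fun i => l (Sum.inr i)))).1 ((fun i => w (Sum.inl i), fun i => w (Sum.inr i)) +
        (cI (fun i => l (Sum.inl i)), cI (fun i => l (Sum.inr i)))).2 := rfl
  rw [h1, h]
  congr 2
  rw [En_E0]
  congr 1
  simp only [EE, cI, dt]
  rw [← Finset.sum_sub_distrib, ← Finset.sum_sub_distrib, Finset.mul_sum, Finset.mul_sum,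
    ← Finset.sum_neg_distrib]
  exact Finset.sum_congr rfl fun i _ => by ring

theorem GF_NPer {Z : Matrix μ μ ℂ} (hZ : Sieg Z) : NPer (E0 μ) (NZ Z) (GF Z) := by
  intro e he w
  have h := FF_N hZ.symm (fun i => w (Sum.inl i), fun i => w (Sum.inr i)) (fun i => e (Sum.inl i))
  rw [← mem_NZ.mp he] at h
  have h1 : GF Z (w + e) = FF Z
      ((fun i => w (Sum.inl i), fun i => w (Sum.inr i)) + ((fun i => e (Sum.inl i)),
        (fun i => e (Sum.inr i)))).1 ((fun i => w (Sum.inl i), fun i => w (Sum.inr i)) +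
        ((fun i => e (Sum.inl i)), (fun i => e (Sum.inr i)))).2 := rfl
  rw [h1, h]
  congr 2
  rw [En_E0]
  simp only [EE, dt]
  rw [← Finset.sum_sub_distrib, ← Finset.sum_sub_distrib, Finset.mul_sum, Finset.mul_sum,
    ← Finset.sum_neg_distrib]
  exact Finset.sum_congr rfl fun i _ => by ring

/-- uniqueness on `C^(μ ⊕ μ)` -/
theorem GF_unique {Z : Matrix μ μ ℂ} (hZ : Sieg Z) {h : (μ ⊕ μ → ℂ) → ℂ} (hd : Differentiable ℂ h)
    (hq : QPer (E0 μ) ep0 h) (hn : NPer (E0 μ) (NZ Z) h) : ∃ c : ℂ, ∀ w, h w = c * GF Z w := by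
  have hel : ∀ (p q : μ → ℂ), Differentiable ℂ fun w : (μ → ℂ) × (μ → ℂ) => h (Sum.elim w.1 w.2) := by
    intro _ _
    refine hd.comp (differentiable_pi.mpr fun i => ?_)
    rcases i with i | i
    · simp only [Sum.elim_inl]; fun_prop
    · simp only [Sum.elim_inr]; fun_prop
  obtain ⟨c, hc⟩ := FF_unique hZ (F := fun w => h (Sum.elim w.1 w.2)) (hel 0 0) (by
    intro w v
    have h1 := hn (Sum.elim v (-mv Z v)) (by rw [mem_NZ]; rfl) (Sum.elim w.1 w.2)
    have h2 : Sum.elim w.1 w.2 + Sum.elim v (-mv Z v) =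
        Sum.elim (w + (v, -mv Z v)).1 (w + (v, -mv Z v)).2 := by
      funext i
      rcases i with i | i <;> simp
    rw [h2] at h1
    rw [h1]
    congr 2
    rw [En_E0]
    simp only [EE, Sum.elim_inl, Sum.elim_inr]
    rw [dt_comm v, dt_comm (-mv Z v)]
    ring) (by
    intro w a b
    have h1 := hq (Sum.elim a b) (Sum.elim w.1 w.2)
    have h2 : Sum.elim w.1 w.2 + cI (Sum.elim a b) =
        Sum.elim (w + (cI a, cI b)).1 (w + (cI a, cI b)).2 := by
      funext i
      rcases i with i | i <;> simp [cI]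
    have e1 : ep0 (Sum.elim a b) = cexp (π * I * (iI a b : ℂ)) := rfl
    have e2 : -(π * I * En (E0 μ) (cI (Sum.elim a b)) (Sum.elim w.1 w.2)) =
        π * I * EE w (cI a, cI b) := by
      rw [En_E0]
      change -(π * I * EE (cI a, cI b) (w.1, w.2)) = _
      simp only [EE]
      rw [dt_comm w.1, dt_comm w.2]
      ring
    rw [h2, e1, e2] at h1
    exact h1)
  refine ⟨c, fun w => ?_⟩
  have h1 := hc (fun i => w (Sum.inl i), fun i => w (Sum.inr i))
  have h2 : Sum.elim (fun i => w (Sum.inl i)) (fun i => w (Sum.inr i)) = w := by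
    funext i
    rcases i with i | i <;> rfl
  simp only [h2] at h1
  exact h1

omit [DecidableEq μ] in
theorem exists_FF_ne {Z : Matrix μ μ ℂ} (hZ : Sieg Z) : ∃ w : μ ⊕ μ → ℂ, GF Z w ≠ 0 := by
  obtain ⟨x, hx⟩ := exists_th_ne hZ
  refine ⟨Sum.elim 0 (cR x), ?_⟩
  have h1 : GF Z (Sum.elim 0 (cR x)) = FF Z 0 (cR x) := rfl
  have m0 : mv Z (0 : μ → ℂ) = 0 := by funext i; simp [mv]
  rw [h1, FF, m0, zero_add]
  exact mul_ne_zero (Complex.exp_ne_zero _) hx

omit [DecidableEq μ] in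
theorem GF_differentiable {Z : Matrix μ μ ℂ} (hZ : Sieg Z) : Differentiable ℂ (GF Z) :=
  differentiableOn_univ.mp (FF_differentiableOn (V := μ ⊕ μ → ℂ) isOpen_univ (Z := fun _ => Z)
    (p := fun w i => w (Sum.inl i)) (q := fun w i => w (Sum.inr i))
    (fun i j => differentiableOn_const _) (fun i => by fun_prop) (fun i => by fun_prop)
    (fun _ _ => hZ.pos))

/-- **the family of theta functions** -/
theorem tfam_FF {ν : Type} [Fintype ν] {X : Set (ν → ℂ)} (hX : IsOpen X) (hc : IsPreconnected X)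
    {Z : (ν → ℂ) → Matrix μ μ ℂ} (hZ : ∀ i j, DifferentiableOn ℂ (fun x => Z x i j) X)
    (hS : ∀ x ∈ X, Sieg (Z x)) :
    TFam (E0 μ) ep0 X (fun x => NZ (Z x)) fun x w => GF (Z x) w where
  op := hX
  conn := hc
  alt := E0_alt
  ep1 := ep0_norm
  ep2 := ep0_congr
  hol := by
    refine FF_differentiableOn (V := (ν → ℂ) × (μ ⊕ μ → ℂ)) (hX.prod isOpen_univ)
      (Z := fun z => Z z.1) (p := fun z i => z.2 (Sum.inl i)) (q := fun z i => z.2 (Sum.inr i))
      (fun i j => ?_) (fun i => by fun_prop) (fun i => by fun_prop) (fun z hz => (hS z.1 hz.1).pos)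
    exact (hZ i j).comp (g := fun x => Z x i j) (f := fun z : (ν → ℂ) × (μ ⊕ μ → ℂ) => z.1)
      (by fun_prop) fun z hz => hz.1
  ne := fun x hx => exists_FF_ne (hS x hx)
  qp := fun x hx => GF_QPer (hS x hx)
  np := fun x hx => GF_NPer (hS x hx)
  uniq := fun x hx h hd hq hn => GF_unique (hS x hx) hd hq hn

end Pool.Agent.Helper96.SH
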