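import Pool.Agent.Helper96.SH.Ce

/-!
Block C4: the projector lemma.  A nonzero theta function for a finite index lattice with algebraic
values at the rational points gives a multiple of the normalised theta function with algebraic
values at the rational points.
-/

open Complex Metric Set Filter Pool.Agent.Helper16.SH
open scoped Real Topology

namespace Pool.Agent.Helper96.SH

section gen

variable {ι : Type} [Fintype ι] (E : Matrix ι ι ℤ)

theorem En_add_left (a b w : ι → ℂ) : En E (a + b) w = En E a w + En E b w := bl_add_left _ _ _ _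

theorem En_add_right (a b w : ι → ℂ) : En E w (a + b) = En E w a + En E w b := bl_add_right _ _ _ _

theorem En_neg_left (a w : ι → ℂ) : En E (-a) w = -En E a w := bl_neg_left _ _ _

theorem En_neg_right (a w : ι → ℂ) : En E w (-a) = -En E w a := bl_neg_right _ _ _

theorem En_smul_left (c : ℂ) (a w : ι → ℂ) : En E (c • a) w = c * En E a w := by
  simp only [En, bl, Finset.mul_sum, Pi.smul_apply, smul_eq_mul]
  exact Finset.sum_congr rfl fun i _ => Finset.sum_congr rfl fun j _ => by ring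

theorem En_smul_right (c : ℂ) (a w : ι → ℂ) : En E w (c • a) = c * En E w a := by
  simp only [En, bl, Finset.mul_sum, Pi.smul_apply, smul_eq_mul]
  exact Finset.sum_congr rfl fun i _ => Finset.sum_congr rfl fun j _ => by ring

theorem En_swap (hE : ∀ i j, E i j = -E j i) (a w : ι → ℂ) : En E a w = -En E w a := by
  simp only [En, bl]
  rw [Finset.sum_comm, ← Finset.sum_neg_distrib]
  refine Finset.sum_congr rfl fun i _ => ?_
  rw [← Finset.sum_neg_distrib]
  refine Finset.sum_congr rfl fun j _ => ?_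
  rw [hE j i]
  push_cast
  ring

/-- the magnetic translation -/
noncomputable def Ut (t : ι → ℂ) (h : (ι → ℂ) → ℂ) : (ι → ℂ) → ℂ := fun w =>
  cexp (π * I * En E t w) * h (w + t)

/-- the corrected integral translation -/
noncomputable def Vt (ep : (ι → ℤ) → ℂ) (a : ι → ℤ) (h : (ι → ℂ) → ℂ) : (ι → ℂ) → ℂ := fun w =>
  (ep a)⁻¹ * Ut E (cI a) h w

variable {E}

theorem Ut_NPer (hE : ∀ i j, E i j = -E j i) {N : Submodule ℂ (ι → ℂ)} {h : (ι → ℂ) → ℂ}
    (hN : NPer E N h) (t : ι → ℂ) : NPer E N (Ut E t h) := by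
  intro e he w
  simp only [Ut]
  rw [show w + e + t = (w + t) + e by abel, hN e he (w + t), ← mul_assoc, ← mul_assoc,
    ← Complex.exp_add, ← Complex.exp_add]
  congr 2
  rw [En_add_right, En_add_right, En_swap E hE t e]
  ring

theorem Vt_NPer (hE : ∀ i j, E i j = -E j i) {N : Submodule ℂ (ι → ℂ)} {h : (ι → ℂ) → ℂ}
    (hN : NPer E N h) (ep : (ι → ℤ) → ℂ) (a : ι → ℤ) : NPer E N (Vt E ep a h) := by
  intro e he w
  simp only [Vt]
  rw [Ut_NPer hE hN (cI a) e he w]
  ring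

theorem Ut_diff {h : (ι → ℂ) → ℂ} (hd : Differentiable ℂ h) (t : ι → ℂ) :
    Differentiable ℂ (Ut E t h) := by
  unfold Ut
  have h1 : Differentiable ℂ fun w : ι → ℂ => En E t w := by
    unfold En bl
    fun_prop
  exact ((h1.const_mul _).cexp).mul (hd.comp (by fun_prop))

theorem Vt_diff {h : (ι → ℂ) → ℂ} (hd : Differentiable ℂ h) (ep : (ι → ℤ) → ℂ) (a : ι → ℤ) :
    Differentiable ℂ (Vt E ep a h) := (Ut_diff hd _).const_mul _

/-- the corrected translations form a group -/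
theorem Vt_add (hE : ∀ i j, E i j = -E j i) {ep : (ι → ℤ) → ℂ}
    (hep : ∀ a b, ep (a + b) = ep a * ep b * cexp (π * I * En E (cI a) (cI b)))
    (h : (ι → ℂ) → ℂ) (a b : ι → ℤ) : Vt E ep a (Vt E ep b h) = Vt E ep (a + b) h := by
  funext w
  simp only [Vt, Ut, cI_add]
  rw [show w + cI a + cI b = w + (cI a + cI b) by abel]
  rw [hep, mul_inv, mul_inv, En_add_left, En_add_right, En_swap E hE (cI b) (cI a), ← Complex.exp_neg]
  have h1 : cexp (π * I * (En E (cI b) w + -En E (cI a) (cI b))) =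
      cexp (π * I * En E (cI b) w) * cexp (-(π * I * En E (cI a) (cI b))) := by
    rw [← Complex.exp_add]
    congr 1
    ring
  have h2 : cexp (π * I * (En E (cI a) w + En E (cI b) w)) =
      cexp (π * I * En E (cI a) w) * cexp (π * I * En E (cI b) w) := by
    rw [← Complex.exp_add]
    congr 1
    ring
  rw [h1, h2]
  ring

theorem Vt_zero {ep : (ι → ℤ) → ℂ} (h0 : ep 0 = 1) (h : (ι → ℂ) → ℂ) : Vt E ep 0 h = h := by
  funext w
  have z0 : (cI (0 : ι → ℤ)) = 0 := by funext i; simp [cI]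
  have : En E 0 w = 0 := by simp [En, bl]
  simp [Vt, Ut, z0, this, h0]

theorem QPer_iff_Vt {ep : (ι → ℤ) → ℂ} (hne : ∀ a, ep a ≠ 0) {h : (ι → ℂ) → ℂ} :
    QPer E ep h ↔ ∀ a, Vt E ep a h = h := by
  constructor
  · intro hq a
    funext w
    simp only [Vt, Ut]
    rw [hq a w]
    have : cexp (π * I * En E (cI a) w) * (ep a * cexp (-(π * I * En E (cI a) w)) * h w) =
        ep a * h w := by
      rw [Complex.exp_neg]
      field_simp [Complex.exp_ne_zero]
    rw [this, inv_mul_cancel_left₀ (hne a)]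
  · intro hv a w
    have h1 := congrFun (hv a) w
    simp only [Vt, Ut] at h1
    rw [← h1, Complex.exp_neg]
    field_simp [Complex.exp_ne_zero, hne a]

/-- trivial multipliers on the sublattice `K Z^ι`: `h (w + K l) = exp (- pi i K E(l,w)) h w` -/
def KPer (E : Matrix ι ι ℤ) (K : ℕ) (h : (ι → ℂ) → ℂ) : Prop :=
  ∀ (l : ι → ℤ) (w : ι → ℂ),
    h (w + (K : ℂ) • cI l) = cexp (-(π * I * (K * En E (cI l) w))) * h w

omit [Fintype ι] in
theorem cI_smul (K : ℕ) (l : ι → ℤ) : cI ((K : ℤ) • l) = (K : ℂ) • cI l := by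
  funext i
  simp [cI]

theorem KPer.vt {K : ℕ} {h : (ι → ℂ) → ℂ} (hK : KPer E K h) {ep : (ι → ℤ) → ℂ}
    (h1 : ∀ l, ep ((K : ℤ) • l) = 1) (l : ι → ℤ) : Vt E ep ((K : ℤ) • l) h = h := by
  funext w
  simp only [Vt, Ut]
  rw [cI_smul, hK, En_smul_left, ← mul_assoc (cexp _), ← Complex.exp_add, add_neg_cancel,
    Complex.exp_zero, h1]
  simp

/-- translations by `K^{-1} Z^ι` preserve the multipliers -/
theorem KPer.ut (hE : ∀ i j, E i j = -E j i) {K : ℕ} (hK0 : K ≠ 0) {h : (ι → ℂ) → ℂ}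
    (hK : KPer E K h) (s : ι → ℤ) : KPer E K (Ut E ((K : ℂ)⁻¹ • cI s) h) := by
  intro l w
  simp only [Ut]
  have hK1 : (K : ℂ) ≠ 0 := by exact_mod_cast hK0
  obtain ⟨m, hm⟩ : ∃ m : ℤ, En E (cI s) (cI l) = m := by
    refine ⟨∑ i, ∑ j, s i * E i j * l j, ?_⟩
    simp only [En, bl, cI]
    push_cast
    rfl
  rw [show w + (K : ℂ) • cI l + (K : ℂ)⁻¹ • cI s = (w + (K : ℂ)⁻¹ • cI s) + (K : ℂ) • cI l by abel,
    hK, ← mul_assoc (cexp _), ← mul_assoc (cexp _), ← Complex.exp_add, ← Complex.exp_add]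
  simp only [En_add_right, En_smul_left, En_smul_right, En_swap E hE (cI l) (cI s), hm]
  congr 1
  rw [show π * I * ((K : ℂ)⁻¹ * En E (cI s) w + (K : ℂ) * ((K : ℂ)⁻¹ * m)) +
      -(π * I * ((K : ℂ) * (En E (cI l) w + (K : ℂ)⁻¹ * -m))) =
      (-(π * I * ((K : ℂ) * En E (cI l) w)) + π * I * ((K : ℂ)⁻¹ * En E (cI s) w)) +
        2 * π * I * m by field_simp; ring, Complex.exp_add, exp_two_pi_int, mul_one]

end gen

section std

variable {μ : Type} [Fintype μ] [DecidableEq μ]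

omit [DecidableEq μ] in
theorem ep0_ne (a : μ ⊕ μ → ℤ) : ep0 a ≠ 0 := Complex.exp_ne_zero _

theorem ep0_add (a b : μ ⊕ μ → ℤ) :
    ep0 (a + b) = ep0 a * ep0 b * cexp (π * I * En (E0 μ) (cI a) (cI b)) := by
  have h1 : En (E0 μ) (cI a) (cI b) = (iI (fun i => a (Sum.inl i)) (fun i => b (Sum.inr i)) : ℂ) -
      (iI (fun i => a (Sum.inr i)) (fun i => b (Sum.inl i)) : ℂ) := by
    rw [En_E0]
    simp only [EE, dt, cI, iI]
    push_cast
    rfl
  have h2 : iI (fun i => (a + b) (Sum.inl i)) (fun i => (a + b) (Sum.inr i)) =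
      iI (fun i => a (Sum.inl i)) (fun i => a (Sum.inr i)) +
      iI (fun i => b (Sum.inl i)) (fun i => b (Sum.inr i)) +
      iI (fun i => a (Sum.inl i)) (fun i => b (Sum.inr i)) +
      iI (fun i => a (Sum.inr i)) (fun i => b (Sum.inl i)) := by
    simp only [iI, Pi.add_apply, ← Finset.sum_add_distrib]
    exact Finset.sum_congr rfl fun i _ => by ring
  simp only [ep0]
  rw [h1, h2, ← Complex.exp_add, ← Complex.exp_add]
  have h3 : (π : ℂ) * I * ((iI (fun i => a (Sum.inl i)) (fun i => a (Sum.inr i)) +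
      iI (fun i => b (Sum.inl i)) (fun i => b (Sum.inr i)) +
      iI (fun i => a (Sum.inl i)) (fun i => b (Sum.inr i)) +
      iI (fun i => a (Sum.inr i)) (fun i => b (Sum.inl i)) : ℤ) : ℂ) =
      (π * I * (iI (fun i => a (Sum.inl i)) (fun i => a (Sum.inr i)) : ℂ) +
        π * I * (iI (fun i => b (Sum.inl i)) (fun i => b (Sum.inr i)) : ℂ) +
        π * I * ((iI (fun i => a (Sum.inl i)) (fun i => b (Sum.inr i)) : ℂ) -
          (iI (fun i => a (Sum.inr i)) (fun i => b (Sum.inl i)) : ℂ))) +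
      2 * π * I * (iI (fun i => a (Sum.inr i)) (fun i => b (Sum.inl i)) : ℂ) := by
    push_cast
    ring
  rw [h3, Complex.exp_add _ (2 * π * I * _), exp_two_pi_int, mul_one]

omit [DecidableEq μ] in
theorem ep0_zero : ep0 (0 : μ ⊕ μ → ℤ) = 1 := by
  simp [ep0, iI]

omit [DecidableEq μ] in
theorem ep0_smul {K : ℕ} (hK : 2 ∣ K) (l : μ ⊕ μ → ℤ) : ep0 ((K : ℤ) • l) = 1 := by
  rw [← ep0_zero (μ := μ)]
  refine ep0_congr _ _ fun i => ?_
  simp only [Pi.smul_apply, smul_eq_mul, Pi.zero_apply, sub_zero]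
  exact Dvd.dvd.mul_right (by exact_mod_cast hK) _

/-- `exp (pi i x)` is algebraic for rational `x` -/
theorem isAlgebraic_exp_pi (x : ℚ) : IsAlgebraic ℚ (cexp (π * I * (x : ℂ))) := by
  refine IsAlgebraic.of_pow (n := 2 * x.den) (by have := x.den_pos; omega) ?_
  have h1 : cexp (π * I * (x : ℂ)) ^ (2 * x.den) = 1 := by
    rw [← Complex.exp_nat_mul]
    have h2 : ((2 * x.den : ℕ) : ℂ) * (π * I * (x : ℂ)) = 2 * π * I * (x.num : ℂ) := by
      have h3 : (x : ℂ) = x.num / x.den := by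
        exact_mod_cast congrArg (fun y : ℚ => (y : ℂ)) (Rat.num_div_den x).symm
      have h4 : (x.den : ℂ) ≠ 0 := by exact_mod_cast x.den_nz
      rw [h3]
      push_cast
      field_simp
    rw [h2, exp_two_pi_int]
  rw [h1]
  exact isAlgebraic_one

theorem isAlgebraic_sum {α : Type*} (s : Finset α) {f : α → ℂ} (h : ∀ i ∈ s, IsAlgebraic ℚ (f i)) :
    IsAlgebraic ℚ (∑ i ∈ s, f i) := by
  classical
  induction s using Finset.induction_on with
  | empty => simpa using isAlgebraic_zero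
  | insert a s ha ih =>
    rw [Finset.sum_insert ha]
    exact (h a (Finset.mem_insert_self a s)).add (ih fun i hi => h i (Finset.mem_insert_of_mem hi))

theorem En_cQ {ι : Type} [Fintype ι] (E : Matrix ι ι ℤ) (a b : ι → ℚ) :
    ∃ x : ℚ, En E (cQ a) (cQ b) = (x : ℂ) := by
  refine ⟨∑ i, ∑ j, a i * E i j * b j, ?_⟩
  simp only [En, bl, cQ]
  push_cast
  rfl

/-- values of translates at rational points are algebraic -/
theorem Ut_alg {ι : Type} [Fintype ι] (E : Matrix ι ι ℤ) {h : (ι → ℂ) → ℂ}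
    (hA : ∀ t : ι → ℚ, IsAlgebraic ℚ (h (cQ t))) (s t : ι → ℚ) :
    IsAlgebraic ℚ (Ut E (cQ s) h (cQ t)) := by
  obtain ⟨x, hx⟩ := En_cQ E s t
  simp only [Ut, hx]
  refine (isAlgebraic_exp_pi x).mul ?_
  have h1 : cQ t + cQ s = cQ (t + s) := by
    funext i
    simp [cQ]
  rw [h1]
  exact hA _

/-- integral representative of a residue vector -/
def lf {ι : Type} {K : ℕ} (l : ι → ZMod K) : ι → ℤ := fun i => ((l i).val : ℤ)

theorem lf_add {ι : Type} {K : ℕ} [NeZero K] (n : ι → ℤ) (l : ι → ZMod K) :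
    ∃ m : ι → ℤ, n + lf l = lf (l + fun i => (n i : ZMod K)) + (K : ℤ) • m := by
  have h1 : ∀ i, ∃ m : ℤ, n i + lf l i = lf (l + fun i => (n i : ZMod K)) i + K * m := by
    intro i
    have h2 : ((n i + lf l i - lf (l + fun i => (n i : ZMod K)) i : ℤ) : ZMod K) = 0 := by
      simp only [lf, Pi.add_apply]
      push_cast
      simp
      ring
    obtain ⟨m, hm⟩ := (ZMod.intCast_zmod_eq_zero_iff_dvd _ K).mp h2
    exact ⟨m, by linarith⟩
  choose m hm using h1
  refine ⟨m, funext fun i => ?_⟩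
  simpa using hm i

/-- orthogonality -/
theorem char_sum {K : ℕ} [NeZero K] (l : μ ⊕ μ → ZMod K) (hl : l ≠ 0) :
    ∑ s : μ ⊕ μ → ZMod K, cexp (2 * π * I * En (E0 μ) ((K : ℂ)⁻¹ • cI (lf s)) (cI (lf l))) = 0 := by
  classical
  let f : (μ ⊕ μ → ZMod K) →+ ZMod K :=
    { toFun := fun s => ∑ i, ∑ j, s i * (E0 μ i j : ZMod K) * l j
      map_zero' := by simp
      map_add' := fun a b => by
        simp only [Pi.add_apply, ← Finset.sum_add_distrib]
        exact Finset.sum_congr rfl fun i _ => Finset.sum_congr rfl fun j _ => by ring }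
  let ψ : AddChar (μ ⊕ μ → ZMod K) ℂ := ZMod.stdAddChar.compAddMonoidHom f
  have h1 : ∀ s, cexp (2 * π * I * En (E0 μ) ((K : ℂ)⁻¹ • cI (lf s)) (cI (lf l))) = ψ s := by
    intro s
    have h2 : f s = ((∑ i, ∑ j, lf s i * E0 μ i j * lf l j : ℤ) : ZMod K) := by
      simp only [f, AddMonoidHom.coe_mk, ZeroHom.coe_mk, lf]
      push_cast
      simp
    have h3 : ψ s = ZMod.stdAddChar (f s) := rfl
    rw [h3, h2, ZMod.stdAddChar_coe]
    congr 1
    rw [En_smul_left]
    have h4 : En (E0 μ) (cI (lf s)) (cI (lf l)) =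
        ((∑ i, ∑ j, lf s i * E0 μ i j * lf l j : ℤ) : ℂ) := by
      simp only [En, bl, cI]
      push_cast
      rfl
    rw [h4]
    field_simp
  simp only [h1]
  rw [AddChar.sum_eq_zero_iff_ne_zero]
  intro h0
  apply hl
  have h5 : ∀ s, f s = 0 := by
    intro s
    have h6 : ψ s = 1 := by rw [h0]; rfl
    have h7 : ZMod.stdAddChar (f s) = (1 : ℂ) := h6
    rw [← (ZMod.stdAddChar (N := K)).map_zero_eq_one] at h7
    exact ZMod.injective_stdAddChar h7
  funext i
  have h8 : ∀ i0 : μ ⊕ μ, ∑ j, (E0 μ i0 j : ZMod K) * l j = 0 := by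
    intro i0
    have := h5 (Pi.single i0 1)
    simp only [f, AddMonoidHom.coe_mk, ZeroHom.coe_mk] at this
    rw [Finset.sum_eq_single i0] at this
    · simpa using this
    · intro b _ hb
      simp [Pi.single_eq_of_ne hb]
    · simp
  rcases i with i | i
  · have := h8 (Sum.inr i)
    simp only [E0, Fintype.sum_sum_type, Matrix.fromBlocks_apply₂₁, Matrix.fromBlocks_apply₂₂] at this
    simpa [Matrix.one_apply] using this
  · have := h8 (Sum.inl i)
    simp only [E0, Fintype.sum_sum_type, Matrix.fromBlocks_apply₁₁, Matrix.fromBlocks_apply₁₂] at this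
    simpa [Matrix.one_apply] using this

theorem KPer.two {ι : Type} [Fintype ι] {E : Matrix ι ι ℤ} (hE : ∀ i j, E i j = -E j i) {K : ℕ}
    {h : (ι → ℂ) → ℂ} (hK : KPer E K h) : KPer E (2 * K) h := by
  intro l w
  have h0 : En E (cI l) (cI l) = 0 := by
    have := En_swap E hE (cI l) (cI l)
    linear_combination this / 2
  have h1 : w + ((2 * K : ℕ) : ℂ) • cI l = (w + (K : ℂ) • cI l) + (K : ℂ) • cI l := by
    funext i
    simp
    ring
  rw [h1, hK, hK, ← mul_assoc, ← Complex.exp_add]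
  simp only [En_add_right, En_smul_right, h0]
  congr 2
  push_cast
  ring

/-- **C4, projector lemma** -/
theorem projector {Z : Matrix μ μ ℂ} (hZ : Sieg Z) {h : (μ ⊕ μ → ℂ) → ℂ} (hd : Differentiable ℂ h)
    (hN : NPer (E0 μ) (NZ Z) h) {K : ℕ} (hK0 : K ≠ 0) (hK : KPer (E0 μ) K h) (hne : ∃ w, h w ≠ 0)
    (hA : ∀ t : μ ⊕ μ → ℚ, IsAlgebraic ℚ (h (cQ t))) :
    ∃ c : ℂ, c ≠ 0 ∧ ∀ t : μ ⊕ μ → ℚ, IsAlgebraic ℚ (c * GF Z (cQ t)) := by
  classical
  -- an even period
  obtain ⟨K, hKe, hK0, hK⟩ : ∃ K : ℕ, 2 ∣ K ∧ K ≠ 0 ∧ KPer (E0 μ) K h :=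
    ⟨2 * K, dvd_mul_right _ _, by omega, hK.two E0_alt⟩
  have : NeZero K := ⟨hK0⟩
  have hK1 : (K : ℂ) ≠ 0 := by exact_mod_cast hK0
  set tt : (μ ⊕ μ → ZMod K) → (μ ⊕ μ → ℂ) := fun s => (K : ℂ)⁻¹ • cI (lf s) with htt
  set G : (μ ⊕ μ → ZMod K) → (μ ⊕ μ → ℂ) → ℂ := fun s w =>
    ∑ l : μ ⊕ μ → ZMod K, Vt (E0 μ) ep0 (lf l) (Ut (E0 μ) (tt s) h) w with hG
  have hGd : ∀ s, Differentiable ℂ (G s) := fun s =>
    Differentiable.fun_sum fun l _ => Vt_diff (Ut_diff hd _) _ _
  have hGN : ∀ s, NPer (E0 μ) (NZ Z) (G s) := by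
    intro s e he w
    simp only [hG]
    rw [Finset.mul_sum]
    exact Finset.sum_congr rfl fun l _ => Vt_NPer E0_alt (Ut_NPer E0_alt hN _) _ _ e he w
  have hGQ : ∀ s, QPer (E0 μ) ep0 (G s) := by
    intro s
    rw [QPer_iff_Vt ep0_ne]
    intro a
    have h1 : Vt (E0 μ) ep0 a (G s) = fun w => ∑ l : μ ⊕ μ → ZMod K,
        Vt (E0 μ) ep0 a (Vt (E0 μ) ep0 (lf l) (Ut (E0 μ) (tt s) h)) w := by
      funext w
      simp only [hG, Vt, Ut, Finset.mul_sum]
    rw [h1]
    funext w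
    have h2 : ∀ l : μ ⊕ μ → ZMod K,
        Vt (E0 μ) ep0 a (Vt (E0 μ) ep0 (lf l) (Ut (E0 μ) (tt s) h)) =
        Vt (E0 μ) ep0 (lf (l + fun i => (a i : ZMod K))) (Ut (E0 μ) (tt s) h) := by
      intro l
      obtain ⟨m, hm⟩ := lf_add a l
      rw [Vt_add E0_alt ep0_add, hm, ← Vt_add E0_alt ep0_add,
        (hK.ut E0_alt hK0 (lf s)).vt (ep0_smul hKe)]
    simp only [h2, hG]
    exact Fintype.sum_equiv (Equiv.addRight fun i => (a i : ZMod K)) _ _ fun l => rfl
  -- one of them is not zero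
  obtain ⟨s, hs⟩ : ∃ s, ∃ w, G s w ≠ 0 := by
    by_contra hcon
    push Not at hcon
    obtain ⟨w, hw⟩ := hne
    apply hw
    have h3 : ∀ s : μ ⊕ μ → ZMod K, ∑ l : μ ⊕ μ → ZMod K,
        cexp (2 * π * I * En (E0 μ) (tt s) (cI (lf l))) * Vt (E0 μ) ep0 (lf l) h w = 0 := by
      intro s
      have h4 := hcon s (w - tt s)
      have h5 : G s (w - tt s) = cexp (π * I * En (E0 μ) (tt s) (w - tt s)) * ∑ l : μ ⊕ μ → ZMod K,
          cexp (2 * π * I * En (E0 μ) (tt s) (cI (lf l))) * Vt (E0 μ) ep0 (lf l) h w := by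
        simp only [hG]
        rw [Finset.mul_sum]
        refine Finset.sum_congr rfl fun l _ => ?_
        simp only [Vt, Ut]
        rw [show w - tt s + cI (lf l) + tt s = w + cI (lf l) by abel, En_add_right]
        have h6 : En (E0 μ) (cI (lf l)) w = En (E0 μ) (cI (lf l)) (w - tt s) -
            En (E0 μ) (tt s) (cI (lf l)) := by
          rw [sub_eq_add_neg w, En_add_right, En_neg_right, En_swap _ E0_alt (cI (lf l)) (tt s)]
          ring
        rw [h6]
        have h7 : cexp (π * I * (En (E0 μ) (tt s) (w - tt s) + En (E0 μ) (tt s) (cI (lf l)))) =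
            cexp (π * I * En (E0 μ) (tt s) (w - tt s)) * cexp (π * I * En (E0 μ) (tt s) (cI (lf l))) := by
          rw [← Complex.exp_add, mul_add]
        have h8 : cexp (2 * π * I * En (E0 μ) (tt s) (cI (lf l))) =
            cexp (π * I * En (E0 μ) (tt s) (cI (lf l))) * cexp (π * I * En (E0 μ) (tt s) (cI (lf l))) := by
          rw [← Complex.exp_add]
          congr 1
          ring
        have h9 : cexp (π * I * (En (E0 μ) (cI (lf l)) (w - tt s) - En (E0 μ) (tt s) (cI (lf l)))) =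
            cexp (π * I * En (E0 μ) (cI (lf l)) (w - tt s)) /
              cexp (π * I * En (E0 μ) (tt s) (cI (lf l))) := by
          rw [← Complex.exp_sub, mul_sub]
        rw [h7, h8, h9]
        field_simp [Complex.exp_ne_zero]
      rw [h5] at h4
      exact (mul_eq_zero.mp h4).resolve_left (Complex.exp_ne_zero _)
    have h10 : ∑ s : μ ⊕ μ → ZMod K, ∑ l : μ ⊕ μ → ZMod K,
        cexp (2 * π * I * En (E0 μ) (tt s) (cI (lf l))) * Vt (E0 μ) ep0 (lf l) h w = 0 :=
      Finset.sum_eq_zero fun s _ => h3 s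
    rw [Finset.sum_comm] at h10
    have h11 : ∀ l : μ ⊕ μ → ZMod K, l ≠ 0 → ∑ s : μ ⊕ μ → ZMod K,
        cexp (2 * π * I * En (E0 μ) (tt s) (cI (lf l))) * Vt (E0 μ) ep0 (lf l) h w = 0 := by
      intro l hl
      rw [← Finset.sum_mul, char_sum l hl, zero_mul]
    rw [Finset.sum_eq_single 0 (fun l _ hl => h11 l hl) (by simp)] at h10
    have h12 : lf (0 : μ ⊕ μ → ZMod K) = 0 := by
      funext i
      simp [lf]
    have h13 : (cI (0 : μ ⊕ μ → ℤ)) = 0 := by funext i; simp [cI]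
    rw [h12, Vt_zero ep0_zero, h13] at h10
    have h14 : ∀ s : μ ⊕ μ → ZMod K, En (E0 μ) (tt s) 0 = 0 := fun s => by simp [En, bl]
    simp only [h14, mul_zero, Complex.exp_zero, one_mul, Finset.sum_const, nsmul_eq_mul] at h10
    refine (mul_eq_zero.mp h10).resolve_left ?_
    exact_mod_cast Finset.card_ne_zero.mpr ⟨0, Finset.mem_univ _⟩
  obtain ⟨c, hc⟩ := GF_unique hZ (hGd s) (hGQ s) (hGN s)
  refine ⟨c, ?_, fun t => ?_⟩
  · rintro rfl
    obtain ⟨w, hw⟩ := hs
    exact hw (by rw [hc]; simp)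
  · rw [← hc]
    simp only [hG]
    refine isAlgebraic_sum _ fun l _ => ?_
    have h15 : tt s = cQ fun i => (lf s i : ℚ) / K := by
      funext i
      simp only [htt, cQ, Pi.smul_apply, smul_eq_mul, cI]
      push_cast
      ring
    have h16 : cI (lf l) = cQ fun i => (lf l i : ℚ) := by
      funext i
      simp [cQ, cI]
    simp only [Vt]
    refine IsAlgebraic.mul ?_ ?_
    · have : (ep0 (lf l))⁻¹ = cexp (π * I * ((-(iI (fun i => lf l (Sum.inl i))
          (fun i => lf l (Sum.inr i))) : ℤ) : ℚ)) := by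
        rw [ep0, ← Complex.exp_neg]
        congr 1
        push_cast
        ring
      rw [this]
      exact isAlgebraic_exp_pi _
    · rw [h16]
      refine Ut_alg (E0 μ) (fun t => ?_) _ t
      rw [h15]
      exact Ut_alg (E0 μ) hA _ t

end std

end Pool.Agent.Helper96.SH
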