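import Mathlib

/-!
Block C (theta functions), definitions.
`F_Z(p,q) = e^{-pi i p q} sum_n exp(pi i (n+p) Z (n+p) + 2 pi i (n+p) q)`, `p, q` complex vectors.
-/

open Complex
open scoped Real

namespace Pool.Agent.Helper96.SH

variable {ι : Type} [Fintype ι]

/-- `x^T Z y` -/
def bl (Z : Matrix ι ι ℂ) (x y : ι → ℂ) : ℂ := ∑ i, ∑ j, x i * Z i j * y j

/-- `x^T y` -/
def dt (x y : ι → ℂ) : ℂ := ∑ i, x i * y i

/-- `Z x` -/
def mv (Z : Matrix ι ι ℂ) (x : ι → ℂ) : ι → ℂ := fun i => ∑ j, Z i j * x j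

/-- integer vectors as complex vectors -/
def cI (n : ι → ℤ) : ι → ℂ := fun i => (n i : ℂ)

/-- real vectors as complex vectors -/
def cR (x : ι → ℝ) : ι → ℂ := fun i => (x i : ℂ)

/-- the Siegel space -/
structure Sieg (Z : Matrix ι ι ℂ) : Prop where
  symm : ∀ i j, Z i j = Z j i
  pos : ∃ c : ℝ, 0 < c ∧ ∀ x : ι → ℝ, c * ∑ i, x i ^ 2 ≤ ∑ i, ∑ j, x i * (Z i j).im * x j

/-- Riemann's theta function -/
noncomputable def th (Z : Matrix ι ι ℂ) (z : ι → ℂ) : ℂ :=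
  ∑' n : ι → ℤ, cexp (π * I * bl Z (cI n) (cI n) + 2 * π * I * dt (cI n) z)

/-- the normalised theta function -/
noncomputable def FF (Z : Matrix ι ι ℂ) (p q : ι → ℂ) : ℂ :=
  cexp (π * I * (bl Z p p + dt p q)) * th Z (mv Z p + q)

end Pool.Agent.Helper96.SH
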