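import Pool.Agent.Helper96.SH.Cg
import Pool.Agent.Helper49.SH.Df

/-!
Bridge between `Helper49/SH/Df.lean` (theta functions `AT`, `AlgT`, Riemann's `FZ`) and block C.
-/

set_option autoImplicit false

namespace Pool.Agent.Helper96.SHB

open Complex Set Pool.Agent.Helper49.SH
open scoped Real Topology

noncomputable section

variable {ι : Type} [Fintype ι]

theorem Eb_add_left (E : ι → ι → ℚ) (a b w : ι → ℂ) : Eb E (a + b) w = Eb E a w + Eb E b w := by
  simp only [Eb, Pi.add_apply, ← Finset.sum_add_distrib]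
  exact Finset.sum_congr rfl fun i _ => Finset.sum_congr rfl fun j _ => by ring

theorem Eb_add_right (E : ι → ι → ℚ) (a b w : ι → ℂ) : Eb E w (a + b) = Eb E w a + Eb E w b := by
  simp only [Eb, Pi.add_apply, ← Finset.sum_add_distrib]
  exact Finset.sum_congr rfl fun i _ => Finset.sum_congr rfl fun j _ => by ring

theorem Eb_smul_left (E : ι → ι → ℚ) (c : ℂ) (a w : ι → ℂ) : Eb E (c • a) w = c * Eb E a w := by
  simp only [Eb, Finset.mul_sum, Pi.smul_apply, smul_eq_mul]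
  exact Finset.sum_congr rfl fun i _ => Finset.sum_congr rfl fun j _ => by ring

theorem Eb_smul_right (E : ι → ι → ℚ) (c : ℂ) (a w : ι → ℂ) : Eb E w (c • a) = c * Eb E w a := by
  simp only [Eb, Finset.mul_sum, Pi.smul_apply, smul_eq_mul]
  exact Finset.sum_congr rfl fun i _ => Finset.sum_congr rfl fun j _ => by ring

theorem Eb_swap {E : ι → ι → ℚ} (hE : ∀ i j, E i j = -E j i) (a w : ι → ℂ) :
    Eb E a w = -Eb E w a := by
  simp only [Eb]
  rw [Finset.sum_comm, ← Finset.sum_neg_distrib]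
  refine Finset.sum_congr rfl fun i _ => ?_
  rw [← Finset.sum_neg_distrib]
  refine Finset.sum_congr rfl fun j _ => ?_
  rw [hE j i]
  push_cast
  ring

theorem Eb_self {E : ι → ι → ℚ} (hE : ∀ i j, E i j = -E j i) (a : ι → ℂ) : Eb E a a = 0 := by
  have := Eb_swap hE a a
  linear_combination this / 2

theorem Eb_diff (E : ι → ι → ℚ) (e : ι → ℂ) : Differentiable ℂ fun w => Eb E e w := by
  unfold Eb
  fun_prop

/-- integrated form of the differential equation -/
theorem AT_np {E : ι → ι → ℚ} (hE : ∀ i j, E i j = -E j i) {N : Submodule ℂ (ι → ℂ)}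
    {F : (ι → ℂ) → ℂ} (hd : Differentiable ℂ F)
    (hh : ∀ e ∈ N, ∀ w, fderiv ℂ F w e = π * I * Eb E e w * F w) {e : ι → ℂ} (he : e ∈ N)
    (w : ι → ℂ) : F (w + e) = exp (π * I * Eb E e w) * F w := by
  set g : ℂ → ℂ := fun s => exp (-(s * (π * I * Eb E e w))) * F (w + s • e) with hg
  have hD : ∀ s : ℂ, HasDerivAt (fun s : ℂ => w + s • e) e s := by
    intro s
    have := ((hasDerivAt_id s).smul_const e).const_add w
    simpa using this
  have h1 : ∀ s : ℂ, HasDerivAt g 0 s := by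
    intro s
    have h2 : HasDerivAt (fun s : ℂ => F (w + s • e)) (fderiv ℂ F (w + s • e) e) s :=
      ((hd (w + s • e)).hasFDerivAt).comp_hasDerivAt s (hD s)
    have h3 : HasDerivAt (fun s : ℂ => exp (-(s * (π * I * Eb E e w))))
        (exp (-(s * (π * I * Eb E e w))) * (-(1 * (π * I * Eb E e w)))) s :=
      (((hasDerivAt_id s).mul_const _).neg).cexp
    have h4 := h3.mul h2
    have h5 : exp (-(s * (π * I * Eb E e w))) * (-(1 * (π * I * Eb E e w))) * F (w + s • e) +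
        exp (-(s * (π * I * Eb E e w))) * fderiv ℂ F (w + s • e) e = 0 := by
      rw [hh e he, Eb_add_right, Eb_smul_right, Eb_self hE]
      ring
    rw [h5] at h4
    exact h4
  have h6 : g 1 = g 0 :=
    is_const_of_deriv_eq_zero (fun s => (h1 s).differentiableAt) (fun s => (h1 s).deriv) 1 0
  simp only [hg, one_smul, zero_smul, add_zero, one_mul, zero_mul, neg_zero, exp_zero] at h6
  rw [← h6, ← mul_assoc, ← Complex.exp_add]
  simp

/-- the converse -/
theorem np_hol {E : ι → ι → ℚ} {N : Submodule ℂ (ι → ℂ)}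
    {F : (ι → ℂ) → ℂ} (hd : Differentiable ℂ F)
    (hh : ∀ e ∈ N, ∀ w, F (w + e) = exp (π * I * Eb E e w) * F w) {e : ι → ℂ} (he : e ∈ N)
    (w : ι → ℂ) : fderiv ℂ F w e = π * I * Eb E e w * F w := by
  have hD : HasDerivAt (fun s : ℂ => w + s • e) e 0 := by
    have := ((hasDerivAt_id (0 : ℂ)).smul_const e).const_add w
    simpa using this
  have h0 : w + (0 : ℂ) • e = w := by simp
  have h2 : HasDerivAt (fun s : ℂ => F (w + s • e)) (fderiv ℂ F w e) 0 := by
    have h3 : HasFDerivAt F (fderiv ℂ F w) (w + (0 : ℂ) • e) := by rw [h0]; exact (hd w).hasFDerivAt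
    exact h3.comp_hasDerivAt (0 : ℂ) hD
  have h4 : (fun s : ℂ => F (w + s • e)) = fun s => exp (s * (π * I * Eb E e w)) * F w := by
    funext s
    rw [hh _ (N.smul_mem s he), Eb_smul_left]
    congr 2
    ring
  rw [h4] at h2
  have h5 : HasDerivAt (fun s : ℂ => exp (s * (π * I * Eb E e w)) * F w)
      (exp (0 * (π * I * Eb E e w)) * (1 * (π * I * Eb E e w)) * F w) 0 :=
    ((((hasDerivAt_id (0 : ℂ)).mul_const _).cexp).mul_const (F w))
  have h6 := h2.unique h5
  rw [h6]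
  simp

/-! ### Riemann's theta function -/

variable {m : ℕ}

/-- a function of two indices as a matrix -/
def mt (Z : Fin m → Fin m → ℂ) : Matrix (Fin m) (Fin m) ℂ := Matrix.of Z

theorem Eb_E0 (w w' : Fin m ⊕ Fin m → ℂ) : Eb (E0 m) w w' =
    Helper16.SH.En (SH.E0 (Fin m)) w w' := by
  simp only [Eb, Helper16.SH.En, SH.bl, Fintype.sum_sum_type]
  congr 1
  · refine Finset.sum_congr rfl fun i _ => ?_
    congr 1
    · refine Finset.sum_congr rfl fun j _ => ?_
      simp [E0, SH.E0]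
    · refine Finset.sum_congr rfl fun j _ => ?_
      simp only [E0, SH.E0, Matrix.fromBlocks_apply₁₂, Matrix.one_apply]
      split_ifs <;> simp
  · refine Finset.sum_congr rfl fun i _ => ?_
    congr 1
    · refine Finset.sum_congr rfl fun j _ => ?_
      simp only [E0, SH.E0, Matrix.fromBlocks_apply₂₁, Matrix.neg_apply, Matrix.one_apply]
      split_ifs <;> simp
    · refine Finset.sum_congr rfl fun j _ => ?_
      simp [E0, SH.E0]

theorem E0_alt (i j : Fin m ⊕ Fin m) : E0 m i j = -E0 m j i := by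
  rcases i with i | i <;> rcases j with j | j <;> simp only [E0, neg_zero]
  · by_cases h : i = j
    · simp [h]
    · simp [h, Ne.symm h]
  · by_cases h : i = j
    · simp [h]
    · simp [h, Ne.symm h]

theorem sieg_of {Z : Fin m → Fin m → ℂ} (hZ : Sieg Z) :
    SH.Sieg (mt Z) := by
  refine ⟨hZ.symm, ?_⟩
  set Q : (Fin m → ℝ) → ℝ := fun x => ∑ i, ∑ j, x i * (Z i j).im * x j with hQ
  have hQ' : ∀ x, Q x = ∑ i, ∑ j, (Z i j).im * x i * x j := fun x =>
    Finset.sum_congr rfl fun i _ => Finset.sum_congr rfl fun j _ => by ring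
  have hQc : Continuous Q := by fun_prop
  have hQs : ∀ (r : ℝ) (x : Fin m → ℝ), Q (fun i => r * x i) = r ^ 2 * Q x := by
    intro r x
    simp only [hQ, Finset.mul_sum]
    exact Finset.sum_congr rfl fun i _ => Finset.sum_congr rfl fun j _ => by ring
  set S : Set (Fin m → ℝ) := {x | ∑ i, x i ^ 2 = 1} with hS
  have hSc : IsCompact S := by
    refine Metric.isCompact_of_isClosed_isBounded (isClosed_eq (by fun_prop) continuous_const) ?_
    refine (Metric.isBounded_closedBall (x := (0 : Fin m → ℝ)) (r := 1)).subset fun x hx => ?_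
    rw [mem_closedBall_zero_iff, pi_norm_le_iff_of_nonneg zero_le_one]
    intro i
    have h1 : x i ^ 2 ≤ 1 := by
      rw [← (show ∑ i, x i ^ 2 = 1 from hx)]
      exact Finset.single_le_sum (f := fun i => x i ^ 2) (fun j _ => sq_nonneg _) (Finset.mem_univ i)
    rw [Real.norm_eq_abs]
    exact (sq_le_one_iff_abs_le_one _).mp h1
  have hn : ∀ x : Fin m → ℝ, x ≠ 0 → 0 < ∑ i, x i ^ 2 := by
    intro x hx
    obtain ⟨i, hi⟩ := Function.ne_iff.mp hx
    exact Finset.sum_pos' (fun i _ => sq_nonneg _) ⟨i, Finset.mem_univ i, by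
      have : x i ≠ 0 := hi
      positivity⟩
  have key : ∀ x : Fin m → ℝ, x ≠ 0 → (fun i => (√(∑ i, x i ^ 2))⁻¹ * x i) ∈ S := by
    intro x hx
    have h1 := hn x hx
    simp only [hS, mem_ofPred_eq, mul_pow, ← Finset.mul_sum, inv_pow, Real.sq_sqrt h1.le]
    exact inv_mul_cancel₀ h1.ne'
  rcases S.eq_empty_or_nonempty with h0 | h0
  · refine ⟨1, one_pos, fun x => ?_⟩
    by_cases hx : x = 0
    · subst hx
      simp
    · exact absurd (key x hx) (by simp [h0])
  · obtain ⟨x0, hx0, hmin⟩ := hSc.exists_isMinOn h0 hQc.continuousOn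
    have hx0' : x0 ≠ 0 := by
      rintro rfl
      simp [hS] at hx0
    refine ⟨Q x0, ?_, fun x => ?_⟩
    · rw [hQ']
      exact hZ.pos x0 hx0'
    · by_cases hx : x = 0
      · subst hx
        simp
      · have h1 := hn x hx
        have h2 := hmin (key x hx)
        simp only [mem_ofPred_eq] at h2
        rw [hQs, inv_pow, Real.sq_sqrt h1.le] at h2
        calc Q x0 * ∑ i, x i ^ 2 ≤ (∑ i, x i ^ 2)⁻¹ * Q x * ∑ i, x i ^ 2 := by gcongr
          _ = Q x := by field_simp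

theorem NZ_eq (Z : Fin m → Fin m → ℂ) : NZ Z = SH.NZ (mt Z) := by
  ext w
  rw [SH.mem_NZ]
  constructor
  · intro h
    funext i
    exact h i
  · intro h i
    exact congrFun h i

theorem FZ_eq {Z : Fin m → Fin m → ℂ} (hZ : ∀ i j, Z i j = Z j i) (w : Fin m ⊕ Fin m → ℂ) :
    FZ Z w = SH.GF (mt Z) w := by
  unfold FZ SH.GF SH.FF SH.th
  rw [← tsum_mul_left, ← tsum_mul_left]
  refine tsum_congr fun n => ?_
  rw [← Complex.exp_add, ← Complex.exp_add]
  congr 1
  set p : Fin m → ℂ := fun i => w (Sum.inl i) with hp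
  set q : Fin m → ℂ := fun i => w (Sum.inr i) with hq
  have h1 : ∑ i, ∑ j, Z i j * (n i + w (Sum.inl i)) * (n j + w (Sum.inl j)) =
      SH.bl (mt Z) (SH.cI n + p) (SH.cI n + p) := by
    simp only [SH.bl, SH.cI, Pi.add_apply, hp, mt, Matrix.of_apply]
    exact Finset.sum_congr rfl fun i _ => Finset.sum_congr rfl fun j _ => by ring
  have h2 : ∑ i, (n i + w (Sum.inl i)) * w (Sum.inr i) = SH.dt (SH.cI n) q + SH.dt p q := by
    rw [← SH.dt_add_left]
    simp only [SH.dt, SH.cI, Pi.add_apply, hp, hq]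
  have h3 : ∑ i, w (Sum.inl i) * w (Sum.inr i) = SH.dt p q := rfl
  rw [h1, h2, h3, SH.bl_add_left, SH.bl_add_right, SH.bl_add_right, SH.dt_add_right, SH.dt_mv,
    SH.bl_symm (Z := mt Z) hZ p (SH.cI n)]
  ring

theorem eps_eq (l : Fin m ⊕ Fin m → ℤ) : eps l = SH.ep0 l := by
  unfold eps SH.ep0
  have h1 : (-1 : ℂ) = exp (π * I) := Complex.exp_pi_mul_I.symm
  rw [h1, ← Complex.exp_int_mul]
  congr 1
  simp only [SH.iI]
  ring

/-- multipliers -/
theorem FZ_per {Z : Fin m → Fin m → ℂ} (hZ : Sieg Z) (l : Fin m ⊕ Fin m → ℤ)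
    (w : Fin m ⊕ Fin m → ℂ) :
    FZ Z (w + zv l) = eps l * exp (-(π * I * Eb (E0 m) (zv l) w)) * FZ Z w := by
  rw [FZ_eq hZ.symm, FZ_eq hZ.symm, eps_eq, Eb_E0]
  exact SH.GF_QPer (sieg_of hZ) l w

theorem FZ_np {Z : Fin m → Fin m → ℂ} (hZ : Sieg Z) {e : Fin m ⊕ Fin m → ℂ} (he : e ∈ NZ Z)
    (w : Fin m ⊕ Fin m → ℂ) : FZ Z (w + e) = exp (π * I * Eb (E0 m) e w) * FZ Z w := by
  rw [FZ_eq hZ.symm, FZ_eq hZ.symm, Eb_E0]
  exact SH.GF_NPer (sieg_of hZ) e (by rwa [NZ_eq] at he) w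

theorem FZ_diff {Z : Fin m → Fin m → ℂ} (hZ : Sieg Z) : Differentiable ℂ (FZ Z) := by
  rw [show FZ Z = SH.GF (mt Z) from funext (FZ_eq hZ.symm)]
  exact SH.GF_differentiable (sieg_of hZ)

theorem FZ_ne {Z : Fin m → Fin m → ℂ} (hZ : Sieg Z) : ∃ w, FZ Z w ≠ 0 := by
  obtain ⟨w, hw⟩ := SH.exists_FF_ne (sieg_of hZ)
  exact ⟨w, by rwa [FZ_eq hZ.symm]⟩

/-- holomorphic in all variables -/
theorem FZ_hol {V : Type*} [NormedAddCommGroup V] [NormedSpace ℂ V] [FiniteDimensional ℂ V]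
    {X : Set V} (hX : IsOpen X) {Z : V → Fin m → Fin m → ℂ}
    (hZ : ∀ i j, DifferentiableOn ℂ (fun x => Z x i j) X) (hS : ∀ x ∈ X, Sieg (Z x)) :
    DifferentiableOn ℂ (fun z : V × (Fin m ⊕ Fin m → ℂ) => FZ (Z z.1) z.2) (X ×ˢ univ) := by
  have h1 : DifferentiableOn ℂ (fun z : V × (Fin m ⊕ Fin m → ℂ) =>
      SH.GF (mt (Z z.1)) z.2) (X ×ˢ univ) := by
    refine SH.FF_differentiableOn (V := V × (Fin m ⊕ Fin m → ℂ)) (hX.prod isOpen_univ)
      (Z := fun z => mt (Z z.1)) (p := fun z i => z.2 (Sum.inl i)) (q := fun z i => z.2 (Sum.inr i))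
      (fun i j => ?_) (fun i => by fun_prop) (fun i => by fun_prop)
      (fun z hz => (sieg_of (hS z.1 hz.1)).pos)
    exact (hZ i j).comp (g := fun x => Z x i j) (f := fun z : V × (Fin m ⊕ Fin m → ℂ) => z.1)
      (by fun_prop) fun z hz => hz.1
  exact h1.congr fun z hz => FZ_eq (hS z.1 hz.1).symm z.2

theorem FZ_AT {Z : Fin m → Fin m → ℂ} (hZ : Sieg Z) (c : ℂ) :
    AT (E0 m) (NZ Z) (fun w => c * FZ Z w) where
  diff := (FZ_diff hZ).const_mul c
  hol := by
    intro e he w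
    refine np_hol ((FZ_diff hZ).const_mul c) (fun e he w => ?_) he w
    rw [FZ_np hZ he w]
    ring
  per := by
    refine ⟨2, by norm_num, fun l w => ?_⟩
    have h1 := FZ_per hZ ((2 : ℤ) • l) w
    have h2 : zv ((2 : ℤ) • l) = ((2 : ℕ) : ℂ) • zv l := by
      funext i
      simp [zv]
    have h3 : eps ((2 : ℤ) • l) = 1 := by
      rw [eps_eq]
      exact SH.ep0_smul (K := 2) (dvd_refl 2) l
    rw [h2, h3, one_mul, Eb_smul_left] at h1
    rw [h1]
    rw [show -(π * I * (((2 : ℕ) : ℂ) * Eb (E0 m) (zv l) w)) =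
      -(π * I * ((2 : ℕ) : ℂ) * Eb (E0 m) (zv l) w) by ring]
    ring

/-- uniqueness -/
theorem FZ_unique {Z : Fin m → Fin m → ℂ} (hZ : Sieg Z) {h : (Fin m ⊕ Fin m → ℂ) → ℂ}
    (hd : Differentiable ℂ h)
    (hq : ∀ (l : Fin m ⊕ Fin m → ℤ) (w : Fin m ⊕ Fin m → ℂ),
      h (w + zv l) = eps l * exp (-(π * I * Eb (E0 m) (zv l) w)) * h w)
    (hn : ∀ e ∈ NZ Z, ∀ w, h (w + e) = exp (π * I * Eb (E0 m) e w) * h w) :
    ∃ c : ℂ, ∀ w, h w = c * FZ Z w := by
  obtain ⟨c, hc⟩ := SH.GF_unique (sieg_of hZ) hd (fun l w => by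
    rw [← eps_eq, ← Eb_E0]
    exact hq l w) (fun e he w => by
    rw [← Eb_E0]
    exact hn e (by rwa [NZ_eq]) w)
  exact ⟨c, fun w => by rw [hc, FZ_eq hZ.symm]⟩

/-- **C4**: if the torus is good then a multiple of Riemann's theta function has algebraic values
at all rational points. -/
theorem good_FZ {Z : Fin m → Fin m → ℂ} (hZ : Sieg Z) (hG : Good (E0 m) (NZ Z)) :
    ∃ c : ℂ, c ≠ 0 ∧ AlgT (E0 m) (NZ Z) (fun w => c * FZ Z w) := by
  obtain ⟨F, hF, hF0⟩ := hG
  obtain ⟨k, hk, hper⟩ := hF.per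
  obtain ⟨c, hc, hA⟩ := SH.projector (sieg_of hZ) hF.diff (fun e he w => by
    rw [← Eb_E0]
    exact AT_np E0_alt hF.diff hF.hol (by rwa [NZ_eq]) w) (K := k) (by omega) (fun l w => by
    rw [← Eb_E0, ← mul_assoc]
    exact hper l w) (Function.ne_iff.mp hF0) hF.val
  refine ⟨c, hc, { FZ_AT hZ c with val := fun t => ?_ }⟩
  rw [FZ_eq hZ.symm]
  exact hA t

end

end Pool.Agent.Helper96.SHB
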