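import Pool.Agent.Helper96.SH.Sb

/-!
Several complex variables III: locally uniform limits and sums of holomorphic functions of
several variables.
-/

open Complex Metric Set Filter
open scoped Real Topology NNReal ENNReal

namespace Pool.Agent.Helper96.SH

variable {E : Type*} [NormedAddCommGroup E] [NormedSpace ℂ E] [CompleteSpace E]

/-- locally uniform limits of holomorphic functions (coordinate space) -/
theorem limit_pi {ι : Type*} [Fintype ι] {α : Type*} {φ : Filter α} [φ.NeBot]
    {F : α → (ι → ℂ) → E} {f : (ι → ℂ) → E} {U : Set (ι → ℂ)} (hU : IsOpen U)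
    (hf : TendstoLocallyUniformlyOn F f φ U) (hF : ∀ᶠ n in φ, DifferentiableOn ℂ (F n) U) :
    DifferentiableOn ℂ f U := by
  classical
  have hc : ContinuousOn f U := hf.continuousOn (hF.mono fun n h => h.continuousOn).frequently
  refine (analyticOnNhd_of_sep hU hc fun z hz j => ?_).differentiableOn
  have hg : Continuous fun t : ℂ => Function.update z j t := continuous_const.update j continuous_id
  have hU' : IsOpen ((fun t : ℂ => Function.update z j t) ⁻¹' U) := hU.preimage hg
  have h1 : TendstoLocallyUniformlyOn (fun n t => F n (Function.update z j t))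
      (fun t => f (Function.update z j t)) φ ((fun t : ℂ => Function.update z j t) ⁻¹' U) :=
    hf.comp (fun t : ℂ => Function.update z j t) (fun t ht => ht) hg.continuousOn
  have h2 : ∀ᶠ n in φ, DifferentiableOn ℂ (fun t => F n (Function.update z j t))
      ((fun t : ℂ => Function.update z j t) ⁻¹' U) := by
    filter_upwards [hF] with n hn
    exact hn.comp (fun t _ => (hasDerivAt_update z j t).differentiableAt.differentiableWithinAt)
      fun t ht => ht
  have h3 := h1.differentiableOn h2 hU'
  exact h3.differentiableAt (hU'.mem_nhds (by simpa using hz))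

variable {V : Type*} [NormedAddCommGroup V] [NormedSpace ℂ V] [FiniteDimensional ℂ V]

/-- locally uniform limits of holomorphic functions -/
theorem limit_differentiableOn {α : Type*} {φ : Filter α} [φ.NeBot]
    {F : α → V → E} {f : V → E} {U : Set V} (hU : IsOpen U)
    (hf : TendstoLocallyUniformlyOn F f φ U) (hF : ∀ᶠ n in φ, DifferentiableOn ℂ (F n) U) :
    DifferentiableOn ℂ f U := by
  let e : V ≃L[ℂ] (Fin (Module.finrank ℂ V) → ℂ) := ContinuousLinearEquiv.ofFinrankEq (by simp)
  have h1 : TendstoLocallyUniformlyOn (fun n t => F n (e.symm t)) (fun t => f (e.symm t)) φ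
      (e.symm ⁻¹' U) := hf.comp e.symm (fun t ht => ht) e.symm.continuous.continuousOn
  have h2 := limit_pi (hU.preimage e.symm.continuous) h1 (by
    filter_upwards [hF] with n hn
    exact hn.comp e.symm.differentiable.differentiableOn fun t ht => ht)
  have h3 := h2.comp (f := e) (s := U) e.differentiable.differentiableOn
    (fun t ht => by simpa using ht)
  simpa [Function.comp_def] using h3

/-- sums of holomorphic functions -/
theorem tsum_differentiableOn {α : Type*} {u : α → ℝ} (hu : Summable u) {F : α → V → E}
    {U : Set V} (hU : IsOpen U) (hF : ∀ i, DifferentiableOn ℂ (F i) U)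
    (hb : ∀ i, ∀ w ∈ U, ‖F i w‖ ≤ u i) : DifferentiableOn ℂ (fun w => ∑' i, F i w) U := by
  have hc := (tendstoUniformlyOn_tsum hu hb).tendstoLocallyUniformlyOn
  exact limit_differentiableOn hU hc (Eventually.of_forall fun s =>
    DifferentiableOn.fun_sum fun i _ => hF i)

/-- termwise differentiation in a direction -/
theorem hasSum_fderiv {α : Type*} {u : α → ℝ} (hu : Summable u) {F : α → V → E}
    {U : Set V} (hU : IsOpen U) (hF : ∀ i, DifferentiableOn ℂ (F i) U)
    (hb : ∀ i, ∀ w ∈ U, ‖F i w‖ ≤ u i) {x : V} (hx : x ∈ U) (v : V) :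
    HasSum (fun i => fderiv ℂ (F i) x v) (fderiv ℂ (fun w => ∑' i, F i w) x v) := by
  have hg : Continuous fun t : ℂ => x + t • v := by fun_prop
  have hd : ∀ t : ℂ, DifferentiableAt ℂ (fun t : ℂ => x + t • v) t := fun t => by fun_prop
  have hD : HasDerivAt (fun t : ℂ => x + t • v) v 0 := by
    have := ((hasDerivAt_id (0 : ℂ)).smul_const v).const_add x
    simpa using this
  have hx0 : x + (0 : ℂ) • v = x := by simp
  have hU' : IsOpen ((fun t : ℂ => x + t • v) ⁻¹' U) := hU.preimage hg
  have h0 : (0 : ℂ) ∈ (fun t : ℂ => x + t • v) ⁻¹' U := by simpa using hx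
  have h1 := Complex.hasSum_deriv_of_summable_norm (F := fun i t => F i (x + t • v)) hu
    (fun i => (hF i).comp (fun t _ => (hd t).differentiableWithinAt) fun t ht => ht) hU'
    (fun i t ht => hb i _ ht) h0
  have key : ∀ {f : V → E}, DifferentiableAt ℂ f x →
      deriv (fun t : ℂ => f (x + t • v)) 0 = fderiv ℂ f x v := by
    intro f hf
    have h2 : HasFDerivAt f (fderiv ℂ f x) (x + (0 : ℂ) • v) := by rw [hx0]; exact hf.hasFDerivAt
    exact (h2.comp_hasDerivAt (0 : ℂ) hD).deriv
  rw [key ((tsum_differentiableOn hu hU hF hb).differentiableAt (hU.mem_nhds hx))] at h1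
  refine h1.congr_fun ?_ |> id
  intro i
  exact (key ((hF i).differentiableAt (hU.mem_nhds hx))).symm

end Pool.Agent.Helper96.SH
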