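import Pool.Agent.Helper96.SH.Ca
import Pool.Agent.Helper96.SH.Sc

/-!
Block C1: convergence of theta functions, joint holomorphy, quasi-periodicity.
-/

open Complex Metric Set Filter
open scoped Real Topology

namespace Pool.Agent.Helper96.SH

variable {ι : Type} [Fintype ι]

/-- products of summable families over a finite index set -/
theorem summable_pi_fin {n : ℕ} (g : Fin n → ℤ → ℝ) (h0 : ∀ i k, 0 ≤ g i k)
    (hs : ∀ i, Summable (g i)) : Summable fun m : Fin n → ℤ => ∏ i, g i (m i) := by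
  induction n with
  | zero => exact (hasSum_fintype _).summable
  | succ n ih =>
    have h := (hs 0).mul_of_nonneg (ih (fun i => g i.succ) (fun i k => h0 _ k) (fun i => hs _))
      (fun k => h0 0 k) (fun m => Finset.prod_nonneg fun i _ => h0 _ _)
    have h2 := (Fin.consEquiv fun _ : Fin (n + 1) => ℤ).symm.summable_iff.mpr h
    refine h2.congr fun m => ?_
    simp [Fin.consEquiv, Fin.prod_univ_succ, Fin.tail]

theorem summable_pi (g : ι → ℤ → ℝ) (h0 : ∀ i k, 0 ≤ g i k)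
    (hs : ∀ i, Summable (g i)) : Summable fun m : ι → ℤ => ∏ i, g i (m i) := by
  classical
  obtain ⟨n, ⟨e⟩⟩ : ∃ n, Nonempty (ι ≃ Fin n) := ⟨Fintype.card ι, ⟨Fintype.equivFin ι⟩⟩
  have h := summable_pi_fin (fun i => g (e.symm i)) (fun i k => h0 _ k) (fun i => hs _)
  have h2 := (e.arrowCongr (Equiv.refl ℤ)).summable_iff.mpr h
  refine h2.congr fun m => ?_
  simp only [Function.comp, Equiv.arrowCongr, Equiv.coe_fn_mk, Equiv.refl_apply]
  exact Fintype.prod_equiv e.symm _ _ fun i => rfl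

/-- one-dimensional Gaussian -/
noncomputable def gau (c B : ℝ) (k : ℤ) : ℝ := Real.exp (-(π * c * (k : ℝ) ^ 2) + 2 * π * B * |(k : ℝ)|)

theorem gau_pos (c B : ℝ) (k : ℤ) : 0 < gau c B k := Real.exp_pos _

theorem summable_gau {c : ℝ} (hc : 0 < c) (B : ℝ) : Summable (gau c B) := by
  have h1 : Summable fun k : ℤ => ‖jacobiTheta₂_term k (B * I : ℂ) (c * I : ℂ)‖ := by
    have := (summable_jacobiTheta₂_term_iff (B * I : ℂ) (c * I : ℂ)).mpr (by simpa using hc)
    exact this.norm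
  have h2 : Summable fun k : ℤ => ‖jacobiTheta₂_term k (-B * I : ℂ) (c * I : ℂ)‖ := by
    have := (summable_jacobiTheta₂_term_iff (-B * I : ℂ) (c * I : ℂ)).mpr (by simpa using hc)
    exact this.norm
  refine Summable.of_nonneg_of_le (fun k => (gau_pos c B k).le) (fun k => ?_) (h1.add h2)
  rw [norm_jacobiTheta₂_term, norm_jacobiTheta₂_term]
  simp only [mul_im, ofReal_re, I_im, mul_one, ofReal_im, I_re, mul_zero, add_zero, neg_mul, neg_im]
  rcases le_total 0 (k : ℝ) with h | h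
  · rw [gau, abs_of_nonneg h]
    refine le_add_of_nonneg_of_le (Real.exp_pos _).le (Real.exp_le_exp.mpr (le_of_eq ?_))
    ring
  · rw [gau, abs_of_nonpos h]
    refine le_add_of_le_of_nonneg (Real.exp_le_exp.mpr (le_of_eq ?_)) (Real.exp_pos _).le
    ring

/-- the imaginary part is at least `c` -/
def PosM (c : ℝ) (Z : Matrix ι ι ℂ) : Prop :=
  ∀ x : ι → ℝ, c * ∑ i, x i ^ 2 ≤ ∑ i, ∑ j, x i * (Z i j).im * x j

/-- the general term of the theta series -/
noncomputable def ter (Z : Matrix ι ι ℂ) (z : ι → ℂ) (n : ι → ℤ) : ℂ :=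
  cexp (π * I * bl Z (cI n) (cI n) + 2 * π * I * dt (cI n) z)

theorem bl_cI_im (Z : Matrix ι ι ℂ) (n : ι → ℤ) :
    (bl Z (cI n) (cI n)).im = ∑ i, ∑ j, (n i : ℝ) * (Z i j).im * (n j : ℝ) := by
  simp only [bl, im_sum, cI]
  refine Finset.sum_congr rfl fun i _ => Finset.sum_congr rfl fun j _ => ?_
  simp [mul_im, mul_re]

theorem dt_cI_im (n : ι → ℤ) (z : ι → ℂ) : (dt (cI n) z).im = ∑ i, (n i : ℝ) * (z i).im := by
  simp only [dt, im_sum, cI]
  refine Finset.sum_congr rfl fun i _ => ?_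
  simp [mul_im]

theorem norm_ter_le {c B : ℝ} {Z : Matrix ι ι ℂ} (hZ : PosM c Z) {z : ι → ℂ}
    (hz : ∀ i, |(z i).im| ≤ B) (n : ι → ℤ) : ‖ter Z z n‖ ≤ ∏ i, gau c B (n i) := by
  rw [ter, Complex.norm_exp]
  simp only [gau]
  rw [← Real.exp_sum]
  apply Real.exp_le_exp.mpr
  have h1 : (π * I * bl Z (cI n) (cI n) + 2 * π * I * dt (cI n) z).re =
      -(π * (bl Z (cI n) (cI n)).im) - 2 * π * (dt (cI n) z).im := by
    simp [mul_re, mul_im]
    ring
  rw [h1, bl_cI_im, dt_cI_im]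
  have h2 := hZ fun i => (n i : ℝ)
  have h3 : -(∑ i, (n i : ℝ) * (z i).im) ≤ ∑ i, B * |(n i : ℝ)| := by
    rw [← Finset.sum_neg_distrib]
    refine Finset.sum_le_sum fun i _ => ?_
    calc -((n i : ℝ) * (z i).im) ≤ |(n i : ℝ) * (z i).im| := neg_le_abs _
      _ = |(z i).im| * |(n i : ℝ)| := by rw [abs_mul, mul_comm]
      _ ≤ _ := by gcongr; exact hz i
  have h4 : ∑ i, (-(π * c * (n i : ℝ) ^ 2) + 2 * π * B * |(n i : ℝ)|) =
      -(π * (c * ∑ i, (n i : ℝ) ^ 2)) + 2 * π * ∑ i, B * |(n i : ℝ)| := by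
    rw [Finset.sum_add_distrib, Finset.mul_sum, Finset.mul_sum, Finset.mul_sum,
      ← Finset.sum_neg_distrib]
    congr 1
    · exact Finset.sum_congr rfl fun i _ => by ring
    · exact Finset.sum_congr rfl fun i _ => by ring
  rw [h4]
  nlinarith [Real.pi_pos]

theorem summable_bd {c : ℝ} (hc : 0 < c) (B : ℝ) :
    Summable fun n : ι → ℤ => ∏ i, gau c B (n i) :=
  summable_pi (fun _ => gau c B) (fun _ k => (gau_pos c B k).le) fun _ => summable_gau hc B

theorem exists_im_bound (z : ι → ℂ) : ∃ B : ℝ, ∀ i, |(z i).im| ≤ B :=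
  ⟨‖z‖, fun i => (Complex.abs_im_le_norm _).trans (norm_le_pi_norm z i)⟩

theorem ter_summable {c : ℝ} (hc : 0 < c) {Z : Matrix ι ι ℂ} (hZ : PosM c Z) (z : ι → ℂ) :
    Summable (ter Z z) := by
  obtain ⟨B, hB⟩ := exists_im_bound z
  exact Summable.of_norm_bounded (summable_bd hc B) (norm_ter_le hZ hB)

theorem th_summable {Z : Matrix ι ι ℂ} (hZ : Sieg Z) (z : ι → ℂ) : Summable (ter Z z) := by
  obtain ⟨c, hc, h⟩ := hZ.pos
  exact ter_summable hc h z

/-- positivity of the imaginary part is an open condition -/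
theorem PosM.near {c : ℝ} {Z Z' : Matrix ι ι ℂ} (hZ : PosM c Z) {δ : ℝ}
    (h : ∀ i j, ‖Z' i j - Z i j‖ ≤ δ) : PosM (c - δ * Fintype.card ι) Z' := by
  intro x
  have h1 := hZ x
  have h2 : ∑ i, ∑ j, x i * (Z i j).im * x j - ∑ i, ∑ j, x i * (Z' i j).im * x j ≤
      δ * Fintype.card ι * ∑ i, x i ^ 2 := by
    rw [← Finset.sum_sub_distrib]
    have h3 : ∀ i, ∑ j, x i * (Z i j).im * x j - ∑ j, x i * (Z' i j).im * x j ≤
        ∑ j, δ * ((x i ^ 2 + x j ^ 2) / 2) := by
      intro i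
      rw [← Finset.sum_sub_distrib]
      refine Finset.sum_le_sum fun j _ => ?_
      have h4 : |(Z i j).im - (Z' i j).im| ≤ δ := by
        have := (Complex.abs_im_le_norm (Z' i j - Z i j)).trans (h i j)
        rwa [sub_im, abs_sub_comm] at this
      have hδ : 0 ≤ δ := (abs_nonneg _).trans h4
      calc x i * (Z i j).im * x j - x i * (Z' i j).im * x j
          = ((Z i j).im - (Z' i j).im) * (x i * x j) := by ring
        _ ≤ |((Z i j).im - (Z' i j).im) * (x i * x j)| := le_abs_self _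
        _ = |(Z i j).im - (Z' i j).im| * |x i * x j| := abs_mul _ _
        _ ≤ δ * ((x i ^ 2 + x j ^ 2) / 2) := by
            gcongr
            rw [abs_le]
            constructor <;> nlinarith [sq_nonneg (x i + x j), sq_nonneg (x i - x j)]
    refine (Finset.sum_le_sum fun i _ => h3 i).trans (le_of_eq ?_)
    have h5 : ∀ i, ∑ j, δ * ((x i ^ 2 + x j ^ 2) / 2) =
        δ / 2 * (Fintype.card ι * x i ^ 2) + δ / 2 * ∑ j, x j ^ 2 := by
      intro i
      rw [Finset.mul_sum, ← nsmul_eq_mul, ← Finset.card_univ, ← Finset.sum_const, Finset.mul_sum,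
        ← Finset.sum_add_distrib]
      exact Finset.sum_congr rfl fun j _ => by ring
    simp only [h5]
    rw [Finset.sum_add_distrib, Finset.sum_const, Finset.card_univ, nsmul_eq_mul,
      ← Finset.mul_sum, ← Finset.mul_sum]
    ring
  nlinarith

variable {V : Type*} [NormedAddCommGroup V] [NormedSpace ℂ V]

theorem bl_diff {U : Set V} {Z : V → Matrix ι ι ℂ} {x y : V → ι → ℂ}
    (hZ : ∀ i j, DifferentiableOn ℂ (fun v => Z v i j) U)
    (hx : ∀ i, DifferentiableOn ℂ (fun v => x v i) U)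
    (hy : ∀ i, DifferentiableOn ℂ (fun v => y v i) U) :
    DifferentiableOn ℂ (fun v => bl (Z v) (x v) (y v)) U := by
  unfold bl
  exact DifferentiableOn.fun_sum fun i _ => DifferentiableOn.fun_sum fun j _ =>
    ((hx i).mul (hZ i j)).mul (hy j)

theorem dt_diff {U : Set V} {x y : V → ι → ℂ}
    (hx : ∀ i, DifferentiableOn ℂ (fun v => x v i) U)
    (hy : ∀ i, DifferentiableOn ℂ (fun v => y v i) U) :
    DifferentiableOn ℂ (fun v => dt (x v) (y v)) U := by
  unfold dt
  exact DifferentiableOn.fun_sum fun i _ => (hx i).mul (hy i)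

theorem mv_diff {U : Set V} {Z : V → Matrix ι ι ℂ} {x : V → ι → ℂ}
    (hZ : ∀ i j, DifferentiableOn ℂ (fun v => Z v i j) U)
    (hx : ∀ i, DifferentiableOn ℂ (fun v => x v i) U) (i : ι) :
    DifferentiableOn ℂ (fun v => mv (Z v) (x v) i) U := by
  unfold mv
  exact DifferentiableOn.fun_sum fun j _ => (hZ i j).mul (hx j)

/-- locally uniform bound for the terms -/
theorem ter_bound [FiniteDimensional ℂ V] {U : Set V} (hU : IsOpen U) {Z : V → Matrix ι ι ℂ}
    {z : V → ι → ℂ} (hZ : ∀ i j, ContinuousOn (fun v => Z v i j) U)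
    (hz : ∀ i, ContinuousOn (fun v => z v i) U) {x : V} (hx : x ∈ U) (hP : ∃ c, 0 < c ∧ PosM c (Z x)) :
    ∃ c B : ℝ, 0 < c ∧ ∃ U' ⊆ U, IsOpen U' ∧ x ∈ U' ∧ ∀ v ∈ U', PosM c (Z v) ∧ ∀ i, |(z v i).im| ≤ B := by
  obtain ⟨c, hc, hP⟩ := hP
  set δ : ℝ := c / (2 * (Fintype.card ι + 1)) with hδ
  have hδ0 : 0 < δ := by positivity
  have h1 : ∀ᶠ v in 𝓝 x, v ∈ U ∧ (∀ i j, ‖Z v i j - Z x i j‖ < δ) ∧ ∀ i, ‖z v i - z x i‖ < 1 := by
    have hUx : ∀ᶠ v in 𝓝 x, v ∈ U := hU.mem_nhds hx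
    refine hUx.and (Filter.Eventually.and ?_ ?_)
    · refine Filter.eventually_all.mpr fun i => Filter.eventually_all.mpr fun j => ?_
      have := (hZ i j).continuousAt (hU.mem_nhds hx)
      exact (Metric.continuousAt_iff'.mp this δ hδ0).mono fun v hv => by rwa [dist_eq_norm] at hv
    · refine Filter.eventually_all.mpr fun i => ?_
      have := (hz i).continuousAt (hU.mem_nhds hx)
      exact (Metric.continuousAt_iff'.mp this 1 one_pos).mono fun v hv => by rwa [dist_eq_norm] at hv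
  obtain ⟨U', hU', ho, hx'⟩ := _root_.eventually_nhds_iff.mp h1
  refine ⟨c - δ * Fintype.card ι, ‖z x‖ + 1, ?_, U', fun v hv => (hU' v hv).1, ho, hx',
    fun v hv => ⟨hP.near fun i j => ((hU' v hv).2.1 i j).le, fun i => ?_⟩⟩
  · have : δ * Fintype.card ι < c := by
      rw [hδ, div_mul_eq_mul_div, div_lt_iff₀ (by positivity)]
      have : (0 : ℝ) ≤ Fintype.card ι := by positivity
      nlinarith
    linarith
  · calc |(z v i).im| ≤ ‖z v i‖ := Complex.abs_im_le_norm _
      _ = ‖(z v i - z x i) + z x i‖ := by ring_nf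
      _ ≤ ‖z v i - z x i‖ + ‖z x i‖ := norm_add_le _ _
      _ ≤ 1 + ‖z x‖ := add_le_add ((hU' v hv).2.2 i).le (norm_le_pi_norm _ _)
      _ = _ := by ring

theorem ter_diff {U : Set V} {Z : V → Matrix ι ι ℂ} {z : V → ι → ℂ}
    (hZ : ∀ i j, DifferentiableOn ℂ (fun v => Z v i j) U)
    (hz : ∀ i, DifferentiableOn ℂ (fun v => z v i) U) (n : ι → ℤ) :
    DifferentiableOn ℂ (fun v => ter (Z v) (z v) n) U := by
  have h1 : DifferentiableOn ℂ (fun v => bl (Z v) (cI n) (cI n)) U :=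
    bl_diff (x := fun _ => cI n) (y := fun _ => cI n) hZ
      (fun i => differentiableOn_const _) fun i => differentiableOn_const _
  have h2 : DifferentiableOn ℂ (fun v => dt (cI n) (z v)) U :=
    dt_diff (x := fun _ => cI n) (fun i => differentiableOn_const _) hz
  unfold ter
  exact ((h1.const_mul (π * I)).add (h2.const_mul (2 * π * I))).cexp

/-- **C1**: the theta function is holomorphic in all parameters -/
theorem th_differentiableOn [FiniteDimensional ℂ V] {U : Set V} (hU : IsOpen U)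
    {Z : V → Matrix ι ι ℂ} {z : V → ι → ℂ} (hZ : ∀ i j, DifferentiableOn ℂ (fun v => Z v i j) U)
    (hz : ∀ i, DifferentiableOn ℂ (fun v => z v i) U) (hP : ∀ v ∈ U, ∃ c, 0 < c ∧ PosM c (Z v)) :
    DifferentiableOn ℂ (fun v => th (Z v) (z v)) U := by
  intro x hx
  obtain ⟨c, B, hc, U', hUU', ho, hx', hb⟩ := ter_bound hU (fun i j => (hZ i j).continuousOn)
    (fun i => (hz i).continuousOn) hx (hP x hx)
  have h1 := tsum_differentiableOn (summable_bd (ι := ι) hc B) ho
    (F := fun n v => ter (Z v) (z v) n)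
    (fun n => (ter_diff hZ hz n).mono hUU') (fun n v hv => norm_ter_le (hb v hv).1 (hb v hv).2 n)
  exact (h1.differentiableAt (ho.mem_nhds hx')).differentiableWithinAt

/-- **C1**: the normalised theta function is holomorphic in all parameters -/
theorem FF_differentiableOn [FiniteDimensional ℂ V] {U : Set V} (hU : IsOpen U)
    {Z : V → Matrix ι ι ℂ} {p q : V → ι → ℂ} (hZ : ∀ i j, DifferentiableOn ℂ (fun v => Z v i j) U)
    (hp : ∀ i, DifferentiableOn ℂ (fun v => p v i) U)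
    (hq : ∀ i, DifferentiableOn ℂ (fun v => q v i) U) (hP : ∀ v ∈ U, ∃ c, 0 < c ∧ PosM c (Z v)) :
    DifferentiableOn ℂ (fun v => FF (Z v) (p v) (q v)) U := by
  unfold FF
  refine DifferentiableOn.mul (DifferentiableOn.cexp ((differentiableOn_const _).mul
    ((bl_diff hZ hp hp).add (dt_diff hp hq)))) ?_
  exact th_differentiableOn hU hZ (z := fun v => mv (Z v) (p v) + q v)
    (fun i => (mv_diff hZ hp i).add (hq i)) hP

theorem Sieg.posM {Z : Matrix ι ι ℂ} (hZ : Sieg Z) : ∃ c, 0 < c ∧ PosM c Z := hZ.pos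

end Pool.Agent.Helper96.SH
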