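import Pool.Agent.Helper96.SH.Cc
import Pool.Agent.Helper94.SH.Un

/-!
Block C2', C3: uniqueness of the normalised theta function, transformation under integral
symplectic maps.
-/

open Complex Metric Set Filter
open scoped Real Topology

namespace Pool.Agent.Helper96.SH

variable {ι : Type} [Fintype ι]

/-- the alternating form on `C^ι x C^ι` -/
def EE (w w' : (ι → ℂ) × (ι → ℂ)) : ℂ := dt w.1 w'.2 - dt w.2 w'.1

/-- **C2'** -/
theorem FF_unique {Z : Matrix ι ι ℂ} (hZ : Sieg Z) {F : (ι → ℂ) × (ι → ℂ) → ℂ}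
    (hd : Differentiable ℂ F)
    (hN : ∀ w v, F (w + (v, -mv Z v)) = cexp (-(π * I * EE w (v, -mv Z v))) * F w)
    (hL : ∀ w (a b : ι → ℤ), F (w + (cI a, cI b)) =
      cexp (π * I * (iI a b : ℂ)) * cexp (π * I * EE w (cI a, cI b)) * F w) :
    ∃ c : ℂ, ∀ w, F w = c * FF Z w.1 w.2 := by
  have hN' : ∀ p q v, F (p + v, q - mv Z v) = cexp (π * I * dt v (mv Z p + q)) * F (p, q) := by
    intro p q v
    have h := hN (p, q) v
    have h1 : (p, q) + (v, -mv Z v) = (p + v, q - mv Z v) := by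
      ext i <;> simp [sub_eq_add_neg]
    rw [h1] at h
    rw [h]
    congr 2
    simp only [EE, dt_neg_right, dt_mv, dt_add_right]
    rw [bl_symm hZ.symm p v, dt_comm q v]
    ring
  have z0 : (cI (0 : ι → ℤ)) = 0 := by funext i; simp [cI]
  have hp : ∀ p q (a : ι → ℤ), F (p + cI a, q) = cexp (-(π * I * dt (cI a) q)) * F (p, q) := by
    intro p q a
    have h := hL (p, q) a 0
    have h1 : (p, q) + (cI a, cI 0) = (p + cI a, q) := by rw [z0]; ext i <;> simp
    rw [h1] at h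
    rw [h]
    simp only [EE, z0, iI, Pi.zero_apply, mul_zero, Finset.sum_const_zero, Int.cast_zero,
      Complex.exp_zero, one_mul]
    have : dt p (0 : ι → ℂ) = 0 := by simp [dt]
    rw [this, dt_comm q]
    congr 2
    ring
  have hq : ∀ p q (b : ι → ℤ), F (p, q + cI b) = cexp (π * I * dt p (cI b)) * F (p, q) := by
    intro p q b
    have h := hL (p, q) 0 b
    have h1 : (p, q) + (cI 0, cI b) = (p, q + cI b) := by rw [z0]; ext i <;> simp
    rw [h1] at h
    rw [h]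
    simp only [EE, z0, iI, Pi.zero_apply, zero_mul, Finset.sum_const_zero, Int.cast_zero,
      mul_zero, Complex.exp_zero, one_mul]
    have : dt q (0 : ι → ℂ) = 0 := by simp [dt]
    rw [this, sub_zero]
  have d0 : ∀ x : ι → ℂ, dt 0 x = 0 := fun x => by simp [dt]
  have m0 : mv Z (0 : ι → ℂ) = 0 := by funext i; simp [mv]
  obtain ⟨c, hc⟩ := Pool.Agent.Helper94.SH.th_unique_of_summable Z (fun z => th_summable hZ z)
    (h := fun z => F (0, z)) (hd.comp (by fun_prop)) (fun z l => by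
      rw [hq, d0]
      simp) (fun z l => by
      have h1 := hN' (cI l) z (-cI l)
      have h2 := hp 0 z l
      rw [zero_add] at h2
      rw [h2, add_neg_cancel, mv_neg, sub_neg_eq_add] at h1
      rw [h1, ← mul_assoc, ← Complex.exp_add]
      congr 2
      simp only [dt_neg_left, dt_add_right, dt_mv, bl_neg_left]
      ring)
  refine ⟨c, fun w => ?_⟩
  obtain ⟨p, q⟩ := w
  have h1 := hN' 0 (mv Z p + q) p
  rw [zero_add, m0, zero_add, add_sub_cancel_left, hc] at h1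
  rw [h1, FF]
  simp only [dt_add_right, dt_mv]
  ring

/-- `FF` satisfies the hypotheses of `FF_unique` -/
theorem FF_N {Z : Matrix ι ι ℂ} (hZ : ∀ i j, Z i j = Z j i) (w : (ι → ℂ) × (ι → ℂ)) (v : ι → ℂ) :
    FF Z (w + (v, -mv Z v)).1 (w + (v, -mv Z v)).2 =
      cexp (-(π * I * EE w (v, -mv Z v))) * FF Z w.1 w.2 := by
  have h := FF_hol (Z := Z) w.1 w.2 v
  simp only [Prod.fst_add, Prod.snd_add, ← sub_eq_add_neg]
  rw [h]
  congr 2
  simp only [EE, dt_neg_right, dt_mv, dt_add_right]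
  rw [bl_symm hZ w.1 v, dt_comm w.2 v]
  ring

theorem FF_L {Z : Matrix ι ι ℂ} (hZ : ∀ i j, Z i j = Z j i) (w : (ι → ℂ) × (ι → ℂ))
    (a b : ι → ℤ) : FF Z (w + (cI a, cI b)).1 (w + (cI a, cI b)).2 =
      cexp (π * I * (iI a b : ℂ)) * cexp (π * I * EE w (cI a, cI b)) * FF Z w.1 w.2 := by
  have h := FF_per hZ w.1 w.2 a b
  simp only [Prod.fst_add, Prod.snd_add]
  rw [h, EE, dt_comm w.2 (cI a)]

theorem FF_differentiable {Z : Matrix ι ι ℂ} (hZ : Sieg Z) :
    Differentiable ℂ fun w : (ι → ℂ) × (ι → ℂ) => FF Z w.1 w.2 := by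
  have h := FF_differentiableOn (V := (ι → ℂ) × (ι → ℂ)) isOpen_univ (Z := fun _ => Z)
    (p := fun w => w.1) (q := fun w => w.2) (fun i j => differentiableOn_const _)
    (fun i => by fun_prop) (fun i => by fun_prop) (fun _ _ => hZ.pos)
  exact differentiableOn_univ.mp h

/-- **C3**: transformation under integral symplectic maps -/
theorem FF_transf {Z Z' : Matrix ι ι ℂ} (hZ : Sieg Z) (hZ' : Sieg Z')
    (φ : (ι → ℂ) × (ι → ℂ) →ₗ[ℂ] (ι → ℂ) × (ι → ℂ))
    (hE : ∀ w w', EE (φ w) (φ w') = EE w w')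
    (hN : ∀ v, ∃ v', φ (v, -mv Z v) = (v', -mv Z' v'))
    (hL : ∀ a b : ι → ℤ, ∃ a' b' : ι → ℤ, φ (cI a, cI b) = (cI a', cI b') ∧
      cexp (π * I * (iI a' b' : ℂ)) = cexp (π * I * (iI a b : ℂ))) :
    ∃ c : ℂ, ∀ w, FF Z' (φ w).1 (φ w).2 = c * FF Z w.1 w.2 := by
  refine FF_unique hZ (F := fun w => FF Z' (φ w).1 (φ w).2) ?_ ?_ ?_
  · exact (FF_differentiable hZ').comp (LinearMap.toContinuousLinearMap φ).differentiable
  · intro w v
    obtain ⟨v', hv'⟩ := hN v
    rw [map_add, hv', FF_N hZ'.symm, ← hv', hE]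
  · intro w a b
    obtain ⟨a', b', h1, h2⟩ := hL a b
    rw [map_add, h1, FF_L hZ'.symm, ← h1, hE, h2]

end Pool.Agent.Helper96.SH
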