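import Pool.Agent.Helper96.SH.Cd

/-!
Uniqueness of Fourier coefficients; theta functions do not vanish identically.
-/

open Complex Metric Set Filter
open scoped Real Topology
namespace Pool.Agent.Helper96.SH
variable {ι : Type} [Fintype ι]

attribute [local instance 2000] instMeasureSpaceUnitAddCircle

local instance (priority := 2000) : MeasureTheory.IsProbabilityMeasure
    (MeasureTheory.volume : MeasureTheory.Measure UnitAddCircle) :=
  inferInstanceAs (MeasureTheory.IsProbabilityMeasure AddCircle.haarAddCircle)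

/-- an absolutely convergent Fourier series that vanishes identically has zero coefficients -/
theorem fourier_zero {a : (ι → ℤ) → ℂ} (ha : Summable a)
    (h : ∀ x : ι → ℝ, ∑' n, a n * cexp (2 * π * I * dt (cI n) (cR x)) = 0) : a = 0 := by
  have h1 : Summable fun n => a n • (UnitAddTorus.mFourier n : C(UnitAddTorus ι, ℂ)) := by
    refine Summable.of_norm ?_
    refine ha.norm.congr fun n => ?_
    rw [norm_smul, UnitAddTorus.mFourier_norm, mul_one]
  obtain ⟨g, hg⟩ : ∃ g, HasSum (fun n => a n • (UnitAddTorus.mFourier n : C(UnitAddTorus ι, ℂ))) g :=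
    ⟨_, h1.hasSum⟩
  have h2 : g = 0 := by
    ext t
    obtain ⟨x, rfl⟩ : ∃ x : ι → ℝ, (fun i => (x i : UnitAddCircle)) = t := by
      choose x hx using fun i => QuotientAddGroup.mk_surjective (t i)
      exact ⟨x, funext hx⟩
    have h3 := (ContinuousMap.evalCLM ℂ (fun i => (x i : UnitAddCircle))).hasSum hg
    have h4 := h x
    have h5 : (fun n => a n * cexp (2 * π * I * dt (cI n) (cR x))) = 
        fun n => (ContinuousMap.evalCLM ℂ (fun i => (x i : UnitAddCircle)))
          (a n • (UnitAddTorus.mFourier n : C(UnitAddTorus ι, ℂ))) := by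
      funext n
      simp [Pool.Agent.Helper94.SH.mFourier_coe]
    rw [h5, h3.tsum_eq] at h4
    simpa using h4
  subst h2
  funext m
  have h6 := (ContinuousMap.toLp (E := ℂ) 2
    (MeasureTheory.volume : MeasureTheory.Measure (UnitAddTorus ι)) ℂ).hasSum hg
  let L : MeasureTheory.Lp ℂ 2 (MeasureTheory.volume : MeasureTheory.Measure (UnitAddTorus ι)) →L[ℂ] ℂ :=
    innerSL ℂ (UnitAddTorus.mFourierLp (d := ι) 2 m)
  have h7 := L.hasSum h6
  have h8 := hasSum_single (f := fun n => L (ContinuousMap.toLp (E := ℂ) 2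
    (MeasureTheory.volume : MeasureTheory.Measure (UnitAddTorus ι)) ℂ
      (a n • (UnitAddTorus.mFourier n : C(UnitAddTorus ι, ℂ))))) m (by
      intro n hn
      have := UnitAddTorus.orthonormal_mFourier (d := ι)
      rw [map_smul, map_smul]
      have h9 := this.2 hn.symm
      change a n * inner ℂ (UnitAddTorus.mFourierLp (d := ι) 2 m) (UnitAddTorus.mFourierLp (d := ι) 2 n) = 0
      rw [h9, mul_zero])
  have h9 := h7.unique h8
  rw [map_zero, map_zero, map_smul, map_smul] at h9
  have h10 : inner ℂ (UnitAddTorus.mFourierLp (d := ι) 2 m) (UnitAddTorus.mFourierLp (d := ι) 2 m) = (1 : ℂ) := by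
    rw [inner_self_eq_norm_sq_to_K, UnitAddTorus.orthonormal_mFourier.1 m]
    simp
  change (0 : ℂ) = a m * inner ℂ (UnitAddTorus.mFourierLp (d := ι) 2 m) (UnitAddTorus.mFourierLp (d := ι) 2 m) at h9
  rw [h10, mul_one] at h9
  exact h9.symm

theorem exists_th_ne {Z : Matrix ι ι ℂ} (hZ : Sieg Z) : ∃ x : ι → ℝ, th Z (cR x) ≠ 0 := by
  by_contra hcon
  push Not at hcon
  have h1 : Summable fun n : ι → ℤ => cexp (π * I * bl Z (cI n) (cI n)) := by
    refine (th_summable hZ 0).congr fun n => ?_
    simp [ter, dt]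
  have h2 := fourier_zero h1 (fun x => by
    rw [← hcon x, th]
    exact tsum_congr fun n => (Complex.exp_add _ _).symm)
  exact Complex.exp_ne_zero _ (congrFun h2 0)
end Pool.Agent.Helper96.SH
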