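import Mathlib

/-!
Several complex variables I (Osgood): a function on a closed polydisc of `C^n` that is continuous
and holomorphic in each variable is the sum of a power series with Cauchy estimates.
-/

open Complex Metric Set MeasureTheory
open scoped Real Topology

namespace Pool.Agent.Helper96.SH

variable {E : Type*} [NormedAddCommGroup E] [NormedSpace ℂ E]

/-- the `k`-th Cauchy coefficient on the circle of radius `r` -/
noncomputable def cc (r : ℝ) (k : ℕ) (g : ℂ → E) : E :=
  (2 * π * I : ℂ)⁻¹ • ∮ z in C(0, r), z⁻¹ ^ k • z⁻¹ • g z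

theorem norm_cc_le {r : ℝ} (hr : 0 < r) (k : ℕ) {g : ℂ → E} {M : ℝ}
    (hM : ∀ z ∈ sphere (0 : ℂ) r, ‖g z‖ ≤ M) : ‖cc r k g‖ ≤ M / r ^ k := by
  unfold cc
  refine (circleIntegral.norm_two_pi_i_inv_smul_integral_le_of_norm_le_const (C := M / r ^ (k + 1))
    hr.le ?_).trans (le_of_eq ?_)
  · intro z hz
    have hz' : ‖z‖ = r := by simpa using hz
    rw [norm_smul, norm_smul, norm_pow, norm_inv, hz', pow_succ, div_eq_mul_inv]
    have h1 := hM z hz
    calc r⁻¹ ^ k * (r⁻¹ * ‖g z‖) = ‖g z‖ * (r⁻¹ ^ k * r⁻¹) := by ring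
      _ ≤ M * (r⁻¹ ^ k * r⁻¹) := by gcongr
      _ = M * (r ^ k * r)⁻¹ := by rw [mul_inv, inv_pow]
  · rw [pow_succ]
    field_simp

theorem hasSum_cc [CompleteSpace E] {r : ℝ} {g : ℂ → E} (hg : ContinuousOn g (closedBall 0 r))
    (hd : DifferentiableOn ℂ g (ball 0 r)) {w : ℂ} (hw : ‖w‖ < r) :
    HasSum (fun k => w ^ k • cc r k g) (g w) := by
  have hr : 0 < r := (norm_nonneg w).trans_lt hw
  have hci : CircleIntegrable g 0 r := (hg.mono sphere_subset_closedBall).circleIntegrable hr.le
  have h := hasSum_cauchyPowerSeries_integral hci hw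
  have hdc : DiffContOnCl ℂ g (ball 0 r) := by
    refine ⟨hd, ?_⟩
    rwa [closure_ball _ hr.ne']
  have h2 := hdc.two_pi_i_inv_smul_circleIntegral_sub_inv_smul (w := w) (by simpa using hw)
  rw [zero_add, h2] at h
  refine h.congr_fun ?_ |> id
  intro k
  rw [cauchyPowerSeries_apply, cc, smul_comm, ← circleIntegral.integral_smul]
  congr 2
  funext z
  simp only [sub_zero, div_eq_mul_inv, mul_pow, smul_smul, mul_assoc]
  
/-- Fubini on the product of two circles -/
theorem circle_swap {F : ℂ → ℂ → E} {r s : ℝ} 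
    (hF : ContinuousOn (fun p : ℂ × ℂ => F p.1 p.2) (sphere 0 r ×ˢ sphere 0 s))
    (hr : 0 ≤ r) (hs : 0 ≤ s) :
    (∮ z in C(0, r), ∮ w in C(0, s), F z w) = ∮ w in C(0, s), ∮ z in C(0, r), F z w := by
  have h2 : (0 : ℝ) ≤ 2 * π := by positivity
  simp only [circleIntegral, intervalIntegral.integral_of_le h2, ← integral_smul]
  have hc : ContinuousOn (Function.uncurry fun θ φ : ℝ => deriv (circleMap 0 r) θ •
      deriv (circleMap 0 s) φ • F (circleMap 0 r θ) (circleMap 0 s φ)) (Icc 0 (2 * π) ×ˢ Icc 0 (2 * π)) := by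
    have h3 : ContinuousOn (fun p : ℝ × ℝ => F (circleMap 0 r p.1) (circleMap 0 s p.2))
        (Icc 0 (2 * π) ×ˢ Icc 0 (2 * π)) := by
      refine hF.comp (f := fun p : ℝ × ℝ => (circleMap 0 r p.1, circleMap 0 s p.2)) ?_ ?_
      · exact ((continuous_circleMap 0 r).comp continuous_fst).prodMk
          ((continuous_circleMap 0 s).comp continuous_snd) |>.continuousOn
      · intro p _
        exact ⟨circleMap_mem_sphere 0 hr p.1, circleMap_mem_sphere 0 hs p.2⟩
    have h4 : ∀ t : ℝ, Continuous fun θ => deriv (circleMap 0 t) θ := by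
      intro t
      simp only [deriv_circleMap]
      exact (continuous_circleMap 0 t).mul continuous_const
    exact (((h4 r).comp continuous_fst).continuousOn).smul
      ((((h4 s).comp continuous_snd).continuousOn).smul h3)
  have hI : Integrable (Function.uncurry fun θ φ : ℝ => deriv (circleMap 0 r) θ •
      deriv (circleMap 0 s) φ • F (circleMap 0 r θ) (circleMap 0 s φ))
      ((volume.restrict (Ioc 0 (2 * π))).prod (volume.restrict (Ioc 0 (2 * π)))) := by
    rw [Measure.prod_restrict]
    refine IntegrableOn.mono_set (t := Icc 0 (2 * π) ×ˢ Icc 0 (2 * π)) ?_ 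
      (prod_mono Ioc_subset_Icc_self Ioc_subset_Icc_self)
    exact hc.integrableOn_compact (isCompact_Icc.prod isCompact_Icc)
  rw [integral_integral_swap hI]
  congr 1
  funext φ
  congr 1
  funext θ
  rw [smul_comm]

/-- continuous on the closed polydisc and holomorphic in each variable -/
structure Sep {ι : Type*} [Fintype ι] [DecidableEq ι] (f : (ι → ℂ) → E) (r : ℝ) : Prop where
  cont : ContinuousOn f (closedBall 0 r)
  diff : ∀ z ∈ closedBall (0 : ι → ℂ) r, ∀ j,
    DifferentiableOn ℂ (fun t => f (Function.update z j t)) (ball 0 r)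

theorem update_mem {ι : Type*} [Fintype ι] [DecidableEq ι] {r : ℝ} (hr : 0 ≤ r) {z : ι → ℂ}
    (hz : z ∈ closedBall (0 : ι → ℂ) r) {t : ℂ} (ht : t ∈ closedBall (0 : ℂ) r) (j : ι) :
    Function.update z j t ∈ closedBall (0 : ι → ℂ) r := by
  simp only [mem_closedBall, dist_zero_right] at hz ht ⊢
  rw [pi_norm_le_iff_of_nonneg hr] at hz ⊢
  intro i
  by_cases h : i = j
  · subst h; simpa using ht
  · simpa [Function.update_of_ne h] using hz i

theorem cons_mem {n : ℕ} {r : ℝ} (hr : 0 ≤ r) {z : Fin n → ℂ}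
    (hz : z ∈ closedBall (0 : Fin n → ℂ) r) {t : ℂ} (ht : t ∈ closedBall (0 : ℂ) r) :
    (Fin.cons t z : Fin (n + 1) → ℂ) ∈ closedBall (0 : Fin (n + 1) → ℂ) r := by
  simp only [mem_closedBall, dist_zero_right] at hz ht ⊢
  rw [pi_norm_le_iff_of_nonneg hr] at hz ⊢
  intro i
  refine Fin.cases ?_ (fun i => ?_) i
  · simpa using ht
  · simpa using hz i

variable [CompleteSpace E]

omit [CompleteSpace E] in
theorem continuousOn_cc {X : Type*} [TopologicalSpace X] [FirstCountableTopology X] {S : Set X}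
    {r : ℝ} (hr : 0 < r) (k : ℕ) {F : X → ℂ → E}
    (hF : ContinuousOn (Function.uncurry F) (S ×ˢ sphere 0 r)) :
    ContinuousOn (fun x => cc r k (F x)) S := by
  have h2 : (0 : ℝ) ≤ 2 * π := by positivity
  rw [continuousOn_iff_continuous_domRestrict]
  unfold cc circleIntegral
  refine Continuous.const_smul ?_ _
  refine intervalIntegral.continuous_parametric_intervalIntegral_of_continuous' ?_ 0 (2 * π)
  have hne : ∀ θ : ℝ, circleMap 0 r θ ≠ 0 := fun θ => circleMap_ne_center hr.ne'
  have h3 : Continuous fun p : S × ℝ => F p.1 (circleMap 0 r p.2) := by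
    have := hF.comp_continuous (f := fun p : S × ℝ => ((p.1 : X), circleMap 0 r p.2))
      ((continuous_subtype_val.comp continuous_fst).prodMk
        ((continuous_circleMap 0 r).comp continuous_snd))
      (fun p => ⟨p.1.2, circleMap_mem_sphere 0 hr.le p.2⟩)
    exact this
  have h5 : Continuous fun p : S × ℝ => (circleMap 0 r p.2)⁻¹ :=
    ((continuous_circleMap 0 r).comp continuous_snd).inv₀ fun p => hne p.2
  have h6 : Continuous fun p : S × ℝ => deriv (circleMap 0 r) p.2 := by
    simp only [deriv_circleMap]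
    exact ((continuous_circleMap 0 r).comp continuous_snd).mul continuous_const
  exact h6.smul ((h5.pow k).smul (h5.smul h3))

theorem Sep.coef {n : ℕ} {f : (Fin (n + 1) → ℂ) → E} {r : ℝ} (hr : 0 < r) (h : Sep f r) (k : ℕ) :
    Sep (fun z : Fin n → ℂ => cc r k fun ζ => f (Fin.cons ζ z)) r := by
  have hcc : Continuous fun p : (Fin n → ℂ) × ℂ => (Fin.cons p.2 p.1 : Fin (n + 1) → ℂ) := by
    refine continuous_pi fun i => ?_
    refine Fin.cases ?_ (fun i => ?_) i
    · simpa using continuous_snd
    · simp only [Fin.cons_succ]; fun_prop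
  have hcont : ContinuousOn (fun z : Fin n → ℂ => cc r k fun ζ => f (Fin.cons ζ z))
      (closedBall 0 r) := by
    refine continuousOn_cc hr k (F := fun z ζ => f (Fin.cons ζ z)) ?_
    refine h.cont.comp (f := fun p : (Fin n → ℂ) × ℂ => (Fin.cons p.2 p.1 : Fin (n + 1) → ℂ))
      hcc.continuousOn ?_
    rintro ⟨z, ζ⟩ ⟨hz, hζ⟩
    exact cons_mem hr.le hz (sphere_subset_closedBall hζ)
  refine ⟨hcont, fun z hz j => ?_⟩
  -- the function of `w` on the circle
  set A : ℂ → E := fun w => cc r k fun ζ => f (Fin.cons ζ (Function.update z j w)) with hA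
  have hup : Continuous fun w : ℂ => Function.update z j w := continuous_const.update j continuous_id
  have hAc : ContinuousOn A (closedBall 0 r) :=
    hcont.comp hup.continuousOn fun w hw => update_mem hr.le hz hw j
  have key : ∀ t ∈ ball (0 : ℂ) r, A t = (2 * π * I : ℂ)⁻¹ • ∮ w in C(0, r), (w - t)⁻¹ • A w := by
    intro t ht
    have hF : ContinuousOn (fun p : ℂ × ℂ => f (Fin.cons p.1 (Function.update z j p.2)))
        (closedBall 0 r ×ˢ closedBall 0 r) := by
      refine h.cont.comp (f := fun p : ℂ × ℂ =>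
        (Fin.cons p.1 (Function.update z j p.2) : Fin (n + 1) → ℂ)) ?_ ?_
      · exact (hcc.comp ((hup.comp continuous_snd).prodMk continuous_fst)).continuousOn
      · rintro ⟨a, b⟩ ⟨ha, hb⟩
        exact cons_mem hr.le (update_mem hr.le hz hb j) ha
    have h1 : ∀ ζ ∈ sphere (0 : ℂ) r, f (Fin.cons ζ (Function.update z j t)) =
        (2 * π * I : ℂ)⁻¹ • ∮ w in C(0, r), (w - t)⁻¹ • f (Fin.cons ζ (Function.update z j w)) := by
      intro ζ hζ
      have hζ' : ζ ∈ closedBall (0 : ℂ) r := sphere_subset_closedBall hζ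
      have hd : DifferentiableOn ℂ (fun w => f (Fin.cons ζ (Function.update z j w))) (ball 0 r) := by
        have h3 := h.diff (Fin.cons ζ z) (cons_mem hr.le hz hζ') j.succ
        simpa only [Fin.cons_update] using h3
      have hc : ContinuousOn (fun w => f (Fin.cons ζ (Function.update z j w))) (closedBall 0 r) :=
        hF.comp (f := fun w : ℂ => (ζ, w)) (by fun_prop) fun w hw => ⟨hζ', hw⟩
      have hdc : DiffContOnCl ℂ (fun w => f (Fin.cons ζ (Function.update z j w))) (ball 0 r) := by
        refine ⟨hd, ?_⟩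
        rwa [closure_ball _ hr.ne']
      exact (hdc.two_pi_i_inv_smul_circleIntegral_sub_inv_smul ht).symm
    have h2 : A t = (2 * π * I : ℂ)⁻¹ • ∮ ζ in C(0, r), ∮ w in C(0, r),
        (2 * π * I : ℂ)⁻¹ • ζ⁻¹ ^ k • ζ⁻¹ • (w - t)⁻¹ • f (Fin.cons ζ (Function.update z j w)) := by
      simp only [hA, cc]
      congr 1
      refine circleIntegral.integral_congr hr.le fun ζ hζ => ?_
      rw [h1 ζ hζ]
      simp only [circleIntegral.integral_smul]
      simp only [smul_smul]
      congr 1
      ring
    rw [h2, circle_swap (F := fun ζ w => (2 * π * I : ℂ)⁻¹ • ζ⁻¹ ^ k • ζ⁻¹ • (w - t)⁻¹ •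
      f (Fin.cons ζ (Function.update z j w))) ?_ hr.le hr.le]
    · congr 1
      refine circleIntegral.integral_congr hr.le fun w hw => ?_
      simp only [hA, cc]
      rw [← circleIntegral.integral_smul, ← circleIntegral.integral_smul]
      refine circleIntegral.integral_congr hr.le fun ζ hζ => ?_
      simp only [smul_smul]
      congr 1
      ring
    · have h7 : ContinuousOn (fun p : ℂ × ℂ => p.1⁻¹) (sphere 0 r ×ˢ sphere 0 r) := by
        refine continuousOn_fst.inv₀ ?_
        rintro ⟨a, b⟩ ⟨ha, hb⟩ h0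
        simp only [mem_sphere_iff_norm, sub_zero] at ha
        change a = 0 at h0
        rw [h0, norm_zero] at ha
        exact hr.ne ha
      have h8 : ContinuousOn (fun p : ℂ × ℂ => (p.2 - t)⁻¹) (sphere 0 r ×ˢ sphere 0 r) := by
        refine (continuousOn_snd.sub continuousOn_const).inv₀ ?_
        rintro ⟨a, b⟩ ⟨ha, hb⟩ h0
        simp only [mem_sphere_iff_norm, sub_zero, mem_ball_zero_iff] at hb ht
        change b - t = 0 at h0
        rw [sub_eq_zero.mp h0] at hb
        exact ht.ne hb
      exact ((h7.pow k).smul (h7.smul (h8.smul (hF.mono (prod_mono sphere_subset_closedBall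
        sphere_subset_closedBall))))).const_smul _
  have hci : CircleIntegrable A 0 r := (hAc.mono sphere_subset_closedBall).circleIntegrable hr.le
  obtain ⟨R, hR⟩ : ∃ R : NNReal, (R : ℝ) = r := ⟨⟨r, hr.le⟩, rfl⟩
  rw [← hR] at hci key hr ⊢
  have hdd := (hasFPowerSeriesOn_cauchy_integral (f := A) (c := 0) (R := R) hci
    (by exact_mod_cast hr)).differentiableOn
  rw [eball_coe] at hdd
  exact hdd.congr key

/-- geometric series over multi-indices -/
theorem summable_geo {n : ℕ} (ρ : Fin n → ℝ) (h0 : ∀ i, 0 ≤ ρ i) (h1 : ∀ i, ρ i < 1) :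
    Summable fun m : Fin n → ℕ => ∏ i, ρ i ^ m i := by
  induction n with
  | zero => exact (hasSum_fintype _).summable
  | succ n ih =>
    have h := (summable_geometric_of_lt_one (h0 0) (h1 0)).mul_of_nonneg
      (ih (fun i => ρ i.succ) (fun i => h0 _) (fun i => h1 _))
      (fun k => pow_nonneg (h0 0) k) (fun m => Finset.prod_nonneg fun i _ => pow_nonneg (h0 _) _)
    have h2 := (Fin.consEquiv fun _ : Fin (n + 1) => ℕ).symm.summable_iff.mpr h
    refine h2.congr fun m => ?_
    simp [Fin.consEquiv, Fin.prod_univ_succ, Fin.tail]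

/-- **Osgood**, centred polydisc, `Fin n` -/
theorem osgood_fin {n : ℕ} {f : (Fin n → ℂ) → E} {r M : ℝ} (hr : 0 < r) (h : Sep f r)
    (hM : ∀ z ∈ closedBall (0 : Fin n → ℂ) r, ‖f z‖ ≤ M) :
    ∃ c : (Fin n → ℕ) → E, (∀ m, ‖c m‖ ≤ M / r ^ (∑ i, m i)) ∧
      ∀ z ∈ ball (0 : Fin n → ℂ) r, HasSum (fun m => (∏ i, z i ^ m i) • c m) (f z) := by
  induction n generalizing M with
  | zero =>
    refine ⟨fun _ => f 0, fun m => by simpa using hM 0 (mem_closedBall_self hr.le), fun z hz => ?_⟩
    have : f z = (∏ i, z i ^ (0 : Fin 0 → ℕ) i) • f 0 := by simp [Subsingleton.elim z 0]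
    rw [this]
    have h3 := hasSum_fintype (fun m : Fin 0 → ℕ => (∏ i, z i ^ m i) • f 0)
    simpa only [Finset.univ_unique, Finset.sum_singleton, Subsingleton.elim _ (0 : Fin 0 → ℕ)]
      using h3
  | succ n ih =>
    have hM0 : 0 ≤ M := (norm_nonneg _).trans (hM 0 (mem_closedBall_self hr.le))
    have hb : ∀ k : ℕ, ∀ z ∈ closedBall (0 : Fin n → ℂ) r,
        ‖cc r k fun ζ => f (Fin.cons ζ z)‖ ≤ M / r ^ k := fun k z hz =>
      norm_cc_le hr k fun ζ hζ => hM _ (cons_mem hr.le hz (sphere_subset_closedBall hζ))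
    choose c hc hs using fun k => ih (h.coef hr k) (hb k)
    refine ⟨fun m => c (m 0) fun i => m i.succ, fun m => ?_, fun z hz => ?_⟩
    · refine (hc _ _).trans (le_of_eq ?_)
      rw [div_div, ← pow_add, Fin.sum_univ_succ]
    · have hz0 : ‖z‖ < r := by simpa using hz
      have hzi : ∀ i, ‖z i‖ < r := fun i => (norm_le_pi_norm z i).trans_lt hz0
      set z' : Fin n → ℂ := fun i => z i.succ with hz'
      have hzz : Fin.cons (z 0) z' = z := by
        funext i
        refine Fin.cases ?_ (fun i => ?_) i <;> simp [hz']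
      have hz'b : z' ∈ ball (0 : Fin n → ℂ) r := by
        rw [mem_ball_zero_iff, pi_norm_lt_iff hr]
        exact fun i => hzi _
      have hz'c := ball_subset_closedBall hz'b
      -- the one variable expansion
      have h1 : HasSum (fun k => z 0 ^ k • cc r k fun ζ => f (Fin.cons ζ z')) (f z) := by
        have hd : DifferentiableOn ℂ (fun ζ => f (Fin.cons ζ z')) (ball 0 r) := by
          have h3 := h.diff z (ball_subset_closedBall hz) 0
          refine h3.congr fun t _ => ?_
          rw [← hzz]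
          simp
        have hcont : ContinuousOn (fun ζ : ℂ => f (Fin.cons ζ z')) (closedBall 0 r) := by
          refine h.cont.comp (f := fun ζ : ℂ => (Fin.cons ζ z' : Fin (n + 1) → ℂ)) ?_ ?_
          · refine Continuous.continuousOn (continuous_pi fun i => ?_)
            refine Fin.cases ?_ (fun i => ?_) i
            · simp only [Fin.cons_zero]; fun_prop
            · simp only [Fin.cons_succ]; fun_prop
          · intro ζ hζ
            exact cons_mem hr.le hz'c hζ
        have h4 := hasSum_cc hcont hd (hzi 0)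
        rwa [hzz] at h4
      have hsum : Summable fun m : ℕ × (Fin n → ℕ) =>
          (z 0 ^ m.1 * ∏ i, z' i ^ m.2 i) • c m.1 m.2 := by
        have hg := (summable_geometric_of_lt_one (div_nonneg (norm_nonneg (z 0)) hr.le)
          ((div_lt_one hr).mpr (hzi 0))).mul_of_nonneg
          (summable_geo (fun i => ‖z' i‖ / r) (fun i => by positivity)
            (fun i => (div_lt_one hr).mpr (hzi _)))
          (fun k => by positivity) (fun m => Finset.prod_nonneg fun i _ => by positivity)
        refine Summable.of_norm_bounded (hg.mul_left M) fun m => ?_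
        rw [norm_smul, norm_mul, norm_pow, norm_prod]
        have h5 : ‖c m.1 m.2‖ ≤ M / r ^ (m.1 + ∑ i, m.2 i) := by
          refine (hc _ _).trans (le_of_eq ?_)
          rw [div_div, ← pow_add]
        calc _ ≤ ‖z 0‖ ^ m.1 * (∏ i, ‖z' i ^ m.2 i‖) * (M / r ^ (m.1 + ∑ i, m.2 i)) := by gcongr
          _ = _ := by
            rw [pow_add, ← Finset.prod_pow_eq_pow_sum]
            simp only [div_pow, Finset.prod_div_distrib, norm_pow]
            field_simp
      have h6 : HasSum (fun m : ℕ × (Fin n → ℕ) => (z 0 ^ m.1 * ∏ i, z' i ^ m.2 i) • c m.1 m.2)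
          (f z) := by
        have h7 := hsum.hasSum
        have h8 := h7.prod_fiberwise (g := fun k => z 0 ^ k • cc r k fun ζ => f (Fin.cons ζ z'))
          (fun k => by
            have := (hs k z' hz'b).const_smul (z 0 ^ k)
            simpa only [smul_smul] using this)
        rwa [h8.unique h1] at h7
      have h9 := (Fin.consEquiv fun _ : Fin (n + 1) => ℕ).symm.hasSum_iff.mpr h6
      refine h9.congr_fun ?_ |> id
      intro m
      simp [Fin.consEquiv, Fin.prod_univ_succ, hz']
      rfl

/-- **Osgood**: power series expansion with Cauchy estimates on a closed polydisc around `x` -/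
theorem osgood {ι : Type*} [Fintype ι] [DecidableEq ι] {f : (ι → ℂ) → E} {x : ι → ℂ} {r M : ℝ}
    (hr : 0 < r) (h : Sep (fun z => f (x + z)) r)
    (hM : ∀ z ∈ closedBall x r, ‖f z‖ ≤ M) :
    ∃ c : (ι → ℕ) → E, (∀ m, ‖c m‖ ≤ M / r ^ (∑ i, m i)) ∧
      ∀ z, ‖z‖ < r → HasSum (fun m => (∏ i, z i ^ m i) • c m) (f (x + z)) := by
  obtain ⟨n, ⟨e⟩⟩ : ∃ n, Nonempty (ι ≃ Fin n) := ⟨Fintype.card ι, ⟨Fintype.equivFin ι⟩⟩
  have hn : ∀ z : Fin n → ℂ, ‖z ∘ e‖ = ‖z‖ := fun z => by
    apply le_antisymm
    · exact (pi_norm_le_iff_of_nonneg (norm_nonneg _)).mpr fun i => norm_le_pi_norm z (e i)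
    · refine (pi_norm_le_iff_of_nonneg (norm_nonneg _)).mpr fun i => ?_
      have := norm_le_pi_norm (z ∘ e) (e.symm i)
      simpa using this
  have hsep : Sep (fun z : Fin n → ℂ => f (x + z ∘ e)) r := by
    refine ⟨?_, ?_⟩
    · refine h.cont.comp (f := fun z : Fin n → ℂ => z ∘ e) (by fun_prop) ?_
      intro z hz
      simpa [hn] using hz
    · intro z hz j
      have h1 := h.diff (z ∘ e) (by simpa [hn] using hz) (e.symm j)
      refine h1.congr fun t _ => ?_
      have : Function.update z j t ∘ e = Function.update (z ∘ e) (e.symm j) t := by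
        funext i
        by_cases hi : i = e.symm j
        · subst hi; simp
        · have : e i ≠ j := fun h' => hi (by rw [← h']; simp)
          simp [Function.update_of_ne hi, Function.update_of_ne this]
      simp only [this]
  obtain ⟨c, hc, hs⟩ := osgood_fin (M := M) hr hsep (fun z hz => hM _ (by
    simpa [hn] using hz))
  refine ⟨fun m => c (m ∘ e.symm), fun m => ?_, fun z hz => ?_⟩
  · refine (hc _).trans (le_of_eq ?_)
    congr 2
    exact Fintype.sum_equiv e.symm _ _ fun i => rfl
  · have hz' : z ∘ e.symm ∈ ball (0 : Fin n → ℂ) r := by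
      have := hn (z ∘ e.symm)
      have h2 : (z ∘ e.symm) ∘ e = z := by funext i; simp
      rw [h2] at this
      rw [mem_ball_zero_iff, ← this]
      exact hz
    have h1 := hs _ hz'
    have h2 : (z ∘ e.symm) ∘ e = z := by funext i; simp
    rw [h2] at h1
    have h3 := (e.arrowCongr (Equiv.refl ℕ)).hasSum_iff.mpr h1
    refine h3.congr_fun ?_ |> id
    intro m
    simp only [Function.comp, Equiv.arrowCongr, Equiv.coe_fn_mk, Equiv.refl_apply]
    congr 1
    exact Fintype.prod_equiv e _ _ fun i => by simp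

end Pool.Agent.Helper96.SH
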